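import Mathlib

set_option autoImplicit false

open Set

namespace Pool.Agent.SSC

universe u v

/-- A set of points of a linear order is scattered if it contains no copy of the rationals. -/
def Scat {L : Type u} [LinearOrder L] (S : Set L) : Prop :=
  ¬ ∃ f : ℚ → L, StrictMono f ∧ ∀ q, f q ∈ S

/-- A set of points is sigma-scattered if it is covered by countably many scattered sets. -/
def SS {L : Type u} [LinearOrder L] (A : Set L) : Prop :=
  ∃ S : ℕ → Set L, (∀ x ∈ A, ∃ n, x ∈ S n) ∧ ∀ n, Scat (S n)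

variable {L : Type u} [LinearOrder L]

theorem Scat.mono {S T : Set L} (h : S ⊆ T) (hT : Scat T) : Scat S := by
  rintro ⟨f, hf, hfS⟩
  exact hT ⟨f, hf, fun q => h (hfS q)⟩

theorem scat_of_subsingleton {S : Set L} (h : S.Subsingleton) : Scat S := by
  rintro ⟨f, hf, hfS⟩
  have h1 : f 0 = f 1 := h (hfS 0) (hfS 1)
  have h2 : f 0 < f 1 := hf (by norm_num)
  exact absurd h1 h2.ne

theorem SS.mono {A B : Set L} (h : A ⊆ B) (hB : SS B) : SS A := by
  obtain ⟨S, h1, h2⟩ := hB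
  exact ⟨S, fun x hx => h1 x (h hx), h2⟩

theorem Scat.ss {S : Set L} (h : Scat S) : SS S :=
  ⟨fun _ => S, fun _ hx => ⟨0, hx⟩, fun _ => h⟩

theorem ss_empty : SS (∅ : Set L) :=
  ⟨fun _ => ∅, fun _ hx => absurd hx (notMem_empty _), fun _ => scat_of_subsingleton
    subsingleton_empty⟩

theorem SS.iUnion_nat {A : ℕ → Set L} (h : ∀ n, SS (A n)) : SS (⋃ n, A n) := by
  choose S hS hS' using h
  refine ⟨fun k => S k.unpair.1 k.unpair.2, fun x hx => ?_, fun k => hS' _ _⟩
  obtain ⟨n, hn⟩ := mem_iUnion.1 hx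
  obtain ⟨m, hm⟩ := hS n x hn
  exact ⟨Nat.pair n m, by simpa using hm⟩

theorem SS.iUnion {ι : Type*} [Countable ι] {A : ι → Set L} (h : ∀ i, SS (A i)) :
    SS (⋃ i, A i) := by
  rcases isEmpty_or_nonempty ι with he | hne
  · rw [iUnion_of_empty]; exact ss_empty
  · obtain ⟨e, he⟩ := exists_surjective_nat ι
    refine (SS.iUnion_nat (fun n => h (e n))).mono (fun x hx => ?_)
    obtain ⟨i, hi⟩ := mem_iUnion.1 hx
    obtain ⟨n, rfl⟩ := he i
    exact mem_iUnion.2 ⟨n, hi⟩

theorem SS.union {A B : Set L} (hA : SS A) (hB : SS B) : SS (A ∪ B) := by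
  refine (SS.iUnion (ι := Bool) (A := fun b => cond b A B) (fun b => ?_)).mono ?_
  · cases b
    · exact hB
    · exact hA
  · rintro x (hx | hx)
    · exact mem_iUnion.2 ⟨true, hx⟩
    · exact mem_iUnion.2 ⟨false, hx⟩

theorem ss_of_countable {A : Set L} (hA : A.Countable) : SS A := by
  have : Countable A := hA
  refine (SS.iUnion (ι := A) (A := fun a => {(a : L)}) (fun a => ?_)).mono ?_
  · exact (scat_of_subsingleton subsingleton_singleton).ss
  · intro x hx
    exact mem_iUnion.2 ⟨⟨x, hx⟩, rfl⟩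

/-- a strictly increasing map of the rationals into a final segment -/
theorem exists_rat_above (q0 : ℚ) : ∃ h : ℚ → ℚ, StrictMono h ∧ ∀ r, q0 < h r := by
  obtain ⟨e⟩ := Order.embedding_from_countable_to_dense ℚ (Set.Ioi q0)
  exact ⟨fun r => (e r : ℚ), fun a b hab => by
    have := e.strictMono hab
    exact this, fun r => (e r).2⟩

theorem exists_rat_below (q0 : ℚ) : ∃ h : ℚ → ℚ, StrictMono h ∧ ∀ r, h r < q0 := by
  obtain ⟨e⟩ := Order.embedding_from_countable_to_dense ℚ (Set.Iio q0)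
  exact ⟨fun r => (e r : ℚ), fun a b hab => by
    have := e.strictMono hab
    exact this, fun r => (e r).2⟩

/-- A set with an antitone map to a well-order, all of whose fibres are scattered, is scattered. -/
theorem scat_step_anti {W : Type v} [LinearOrder W] [WellFoundedLT W] (φ : L → W) {S : Set L}
    (hφ : ∀ x ∈ S, ∀ y ∈ S, x < y → φ y ≤ φ x)
    (hf : ∀ w, Scat {x | x ∈ S ∧ φ x = w}) : Scat S := by
  rintro ⟨f, hmono, hfS⟩
  obtain ⟨w, ⟨q0, hq0⟩, hmin⟩ := WellFounded.has_min (wellFounded_lt (α := W))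
    (Set.range (fun q => φ (f q))) ⟨_, ⟨0, rfl⟩⟩
  obtain ⟨h, hh, hgt⟩ := exists_rat_above q0
  refine hf w ⟨fun r => f (h r), hmono.comp hh, fun r => ⟨hfS _, ?_⟩⟩
  have h1 : φ (f (h r)) ≤ φ (f q0) := hφ _ (hfS _) _ (hfS _) (hmono (hgt r))
  have h2 : ¬ φ (f (h r)) < w := hmin _ ⟨h r, rfl⟩
  have h3 : φ (f q0) = w := hq0
  rw [h3] at h1
  exact le_antisymm h1 (not_lt.1 h2)

theorem scat_step_mono {W : Type v} [LinearOrder W] [WellFoundedLT W] (φ : L → W) {S : Set L}
    (hφ : ∀ x ∈ S, ∀ y ∈ S, x < y → φ x ≤ φ y)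
    (hf : ∀ w, Scat {x | x ∈ S ∧ φ x = w}) : Scat S := by
  rintro ⟨f, hmono, hfS⟩
  obtain ⟨w, ⟨q0, hq0⟩, hmin⟩ := WellFounded.has_min (wellFounded_lt (α := W))
    (Set.range (fun q => φ (f q))) ⟨_, ⟨0, rfl⟩⟩
  obtain ⟨h, hh, hlt⟩ := exists_rat_below q0
  refine hf w ⟨fun r => f (h r), hmono.comp hh, fun r => ⟨hfS _, ?_⟩⟩
  have h1 : φ (f (h r)) ≤ φ (f q0) := hφ _ (hfS _) _ (hfS _) (hmono (hlt r))
  have h2 : ¬ φ (f (h r)) < w := hmin _ ⟨h r, rfl⟩
  have h3 : φ (f q0) = w := hq0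
  rw [h3] at h1
  exact le_antisymm h1 (not_lt.1 h2)

/-- A set with an antitone map to a well-order, all of whose fibres are sigma-scattered, is
sigma-scattered. -/
theorem ss_step_anti {W : Type v} [LinearOrder W] [WellFoundedLT W] (φ : L → W) {A : Set L}
    (hφ : ∀ x ∈ A, ∀ y ∈ A, x < y → φ y ≤ φ x)
    (hf : ∀ w, SS {x | x ∈ A ∧ φ x = w}) : SS A := by
  choose S hS hS' using hf
  refine ⟨fun n => {x | x ∈ A ∧ x ∈ S (φ x) n}, fun x hx => ?_, fun n => ?_⟩
  · obtain ⟨n, hn⟩ := hS (φ x) x ⟨hx, rfl⟩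
    exact ⟨n, hx, hn⟩
  · refine scat_step_anti φ (fun x hx y hy => hφ x hx.1 y hy.1) (fun w => ?_)
    refine (hS' w n).mono ?_
    rintro x ⟨⟨_, h2⟩, h3⟩
    rw [← h3]; exact h2

theorem ss_step_mono {W : Type v} [LinearOrder W] [WellFoundedLT W] (φ : L → W) {A : Set L}
    (hφ : ∀ x ∈ A, ∀ y ∈ A, x < y → φ x ≤ φ y)
    (hf : ∀ w, SS {x | x ∈ A ∧ φ x = w}) : SS A := by
  choose S hS hS' using hf
  refine ⟨fun n => {x | x ∈ A ∧ x ∈ S (φ x) n}, fun x hx => ?_, fun n => ?_⟩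
  · obtain ⟨n, hn⟩ := hS (φ x) x ⟨hx, rfl⟩
    exact ⟨n, hx, hn⟩
  · refine scat_step_mono φ (fun x hx y hy => hφ x hx.1 y hy.1) (fun w => ?_)
    refine (hS' w n).mono ?_
    rintro x ⟨⟨_, h2⟩, h3⟩
    rw [← h3]; exact h2

/-! ### closure under finitary operations -/

/-- `N` is closed under all operations `F i`. -/
def Closed {H : Type v} {ι : Type*} (F : ι → List H → H) (N : Set H) : Prop :=
  ∀ i l, (∀ h ∈ l, h ∈ N) → F i l ∈ N

/-- one closure step -/
def stepC {H : Type v} {ι : Type*} (F : ι → List H → H) (N : Set H) : Set H :=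
  N ∪ {h | ∃ i l, (∀ h' ∈ l, h' ∈ N) ∧ F i l = h}

def iterC {H : Type v} {ι : Type*} (F : ι → List H → H) (X : Set H) : ℕ → Set H
  | 0 => X
  | n + 1 => stepC F (iterC F X n)

/-- closure of a set under finitary operations -/
def cloC {H : Type v} {ι : Type*} (F : ι → List H → H) (X : Set H) : Set H :=
  ⋃ n, iterC F X n

section closure
variable {H : Type v} {ι : Type*} (F : ι → List H → H)

theorem iterC_succ_sup (X : Set H) (n : ℕ) : iterC F X n ⊆ iterC F X (n + 1) :=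
  subset_union_left

theorem iterC_mono (X : Set H) {m n : ℕ} (h : m ≤ n) : iterC F X m ⊆ iterC F X n := by
  induction n, h using Nat.le_induction with
  | base => exact subset_rfl
  | succ n _ ih => exact ih.trans (iterC_succ_sup F X n)

theorem list_bound {N : ℕ → Set H} (hN : ∀ m n, m ≤ n → N m ⊆ N n) (l : List H)
    (hl : ∀ h ∈ l, h ∈ ⋃ n, N n) : ∃ n, ∀ h ∈ l, h ∈ N n := by
  induction l with
  | nil => exact ⟨0, fun h hh => absurd hh (List.not_mem_nil)⟩
  | cons a t ih =>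
    obtain ⟨n, hn⟩ := ih (fun h hh => hl h (List.mem_cons_of_mem _ hh))
    obtain ⟨m, hm⟩ := mem_iUnion.1 (hl a (List.mem_cons_self))
    refine ⟨max m n, fun h hh => ?_⟩
    rcases List.mem_cons.1 hh with rfl | h2
    · exact hN _ _ (le_max_left _ _) hm
    · exact hN _ _ (le_max_right _ _) (hn h h2)

theorem cloC_closed (X : Set H) : Closed F (cloC F X) := by
  intro i l hl
  obtain ⟨n, hn⟩ := list_bound (fun m n h => iterC_mono F X h) l hl
  exact mem_iUnion.2 ⟨n + 1, Or.inr ⟨i, l, hn, rfl⟩⟩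

theorem subset_cloC (X : Set H) : X ⊆ cloC F X := fun x hx => mem_iUnion.2 ⟨0, hx⟩

theorem closed_iUnion {N : ℕ → Set H} (hN : ∀ m n, m ≤ n → N m ⊆ N n)
    (hc : ∀ n, Closed F (N n)) : Closed F (⋃ n, N n) := by
  intro i l hl
  obtain ⟨n, hn⟩ := list_bound hN l hl
  exact mem_iUnion.2 ⟨n, hc n i l hn⟩

theorem countable_lists {N : Set H} (hN : N.Countable) :
    {l : List H | ∀ h ∈ l, h ∈ N}.Countable := by
  have : Countable N := hN
  have h1 : {l : List H | ∀ h ∈ l, h ∈ N} = Set.range (List.map (Subtype.val : N → H)) := by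
    ext l
    constructor
    · intro hl
      refine ⟨l.attach.map (fun a => ⟨a.1, hl a.1 a.2⟩), ?_⟩
      simp
    · rintro ⟨l', rfl⟩ h hh
      obtain ⟨a, _, rfl⟩ := List.mem_map.1 hh
      exact a.2
  rw [h1]
  exact countable_range _

theorem stepC_countable [Countable ι] {N : Set H} (hN : N.Countable) :
    (stepC F N).Countable := by
  refine hN.union ?_
  have h2 : {h | ∃ i l, (∀ h' ∈ l, h' ∈ N) ∧ F i l = h}
      = ⋃ i, (F i) '' {l : List H | ∀ h ∈ l, h ∈ N} := by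
    ext h
    simp only [mem_setOf_eq, mem_iUnion, mem_image]
  rw [h2]
  exact countable_iUnion (fun i => (countable_lists hN).image _)

theorem cloC_countable [Countable ι] {X : Set H} (hX : X.Countable) : (cloC F X).Countable := by
  refine countable_iUnion (fun n => ?_)
  induction n with
  | zero => exact hX
  | succ n ih => exact stepC_countable F ih

end closure

end Pool.Agent.SSC
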