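import Pool.Agent.SSC.Union

set_option autoImplicit false

open Set Cardinal

namespace Pool.Agent.SSC

universe u v

variable {L : Type u} [LinearOrder L]

section

variable {P : Type u} [LinearOrder P] [WellFoundedLT P] (K : P → Set (LowerSet L))

/-- cuts of the chain, or indices of the chain -/
abbrev HH : Type u := ↥(⋃ q, K q) ⊕ P

/-- the cut of an element -/
def cc : HH K → LowerSet L := Sum.elim Subtype.val (fun _ => ⊥)

variable (hbot : ⊥ ∈ ⋃ q, K q)

include hbot in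
theorem cc_mem (h : HH K) : cc K h ∈ ⋃ q, K q := by
  rcases h with h | h
  · exact h.2
  · exact hbot

/-- first level of the chain containing a cut -/
noncomputable def rk (h : HH K) : P :=
  WellFounded.min (wellFounded_lt (α := P)) {p | cc K h ∈ K p} (mem_iUnion.1 (cc_mem K hbot h))

theorem rk_mem (h : HH K) : cc K h ∈ K (rk K hbot h) :=
  WellFounded.min_mem (wellFounded_lt (α := P)) {p | cc K h ∈ K p}
    (mem_iUnion.1 (cc_mem K hbot h))

include hbot in
theorem mR_mem' (p : P) (w : LowerSet L) : mR (K p) w ∈ ⋃ q, K q := by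
  rcases mR_mem (K p) w with h | h
  · exact mem_iUnion.2 ⟨p, h⟩
  · rw [h]; exact hbot

include hbot in
theorem mL_mem' (p : P) (w : LowerSet L) : mL (K p) w ∈ ⋃ q, K q := by
  rcases mL_mem (K p) w with h | h
  · exact mem_iUnion.2 ⟨p, h⟩
  · rw [h]; exact hbot

variable (hPhi : ∀ p, Closed (Phi (K p)) (⋃ q, K q))

include hbot hPhi in
theorem phi_mem' (p : P) (n : ℕ) (l : List (HH K)) :
    Phi (K p) n (l.map (cc K)) ∈ ⋃ q, K q := by
  refine hPhi p n _ (fun h hh => ?_)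
  obtain ⟨h', _, rfl⟩ := List.mem_map.1 hh
  exact cc_mem K hbot h'

/-- the final algebra -/
noncomputable def FH : ℕ → List (HH K) → HH K
  | 0, _ => Sum.inl ⟨⊥, hbot⟩
  | 1, [] => Sum.inl ⟨⊥, hbot⟩
  | 1, h :: _ => Sum.inr (rk K hbot h)
  | 2, (h :: Sum.inr p :: _) => Sum.inl ⟨mR (K p) (cc K h), mR_mem' K hbot p _⟩
  | 2, _ => Sum.inl ⟨⊥, hbot⟩
  | 3, (h :: Sum.inr p :: _) => Sum.inl ⟨mL (K p) (cc K h), mL_mem' K hbot p _⟩
  | 3, _ => Sum.inl ⟨⊥, hbot⟩
  | (n + 4), (Sum.inr p :: l) => Sum.inl ⟨Phi (K p) n (l.map (cc K)), phi_mem' K hbot hPhi p n l⟩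
  | (_ + 4), _ => Sum.inl ⟨⊥, hbot⟩

end

theorem ss_of_chain {I : Type u} {P : Type u} [LinearOrder P] [WellFoundedLT P] [Nonempty P]
    (A : I → Set L) (F : I → ℕ → List (LowerSet L) → LowerSet L)
    (hF : ∀ i, ∀ N, Closed (F i) N → ∀ x ∈ A i, Cap N x) (hcov : ∀ x, ∃ i, x ∈ A i)
    (K : P → Set (LowerSet L)) (hmono : ∀ p q, p ≤ q → K p ⊆ K q) (hb : ∀ p, ⊥ ∈ K p)
    (hIic : ∀ x, LowerSet.Iic x ∈ ⋃ q, K q) (hIio : ∀ x, LowerSet.Iio x ∈ ⋃ q, K q)
    (hclF : ∀ p i, Closed (F i) (K p)) (hG : ∀ p, Good (GG (K p)))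
    (hPhi : ∀ p, Closed (Phi (K p)) (⋃ q, K q)) : SS (Set.univ : Set L) := by
  obtain ⟨p0⟩ := ‹Nonempty P›
  have hbot : (⊥ : LowerSet L) ∈ ⋃ q, K q := mem_iUnion.2 ⟨p0, hb p0⟩
  refine thmA (FH K hbot hPhi) (cc K) (fun x => Sum.inl ⟨LowerSet.Iic x, hIic x⟩)
    (fun x => Sum.inl ⟨LowerSet.Iio x, hIio x⟩) (fun _ => rfl) (fun _ => rfl) ?_
  intro N _ hN x
  set Z : Set (LowerSet L) := cc K '' N with hZ
  have hrk : ∀ h ∈ N, Sum.inr (rk K hbot h) ∈ N := fun h hh => hN 1 [h] (by simpa using hh)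
  have hmR : ∀ p, Sum.inr p ∈ N → ∀ w ∈ Z, mR (K p) w ∈ Z := by
    rintro p hp _ ⟨h, hh, rfl⟩
    exact ⟨_, hN 2 [h, Sum.inr p] (by
      intro h' hh'
      simp only [List.mem_cons, List.not_mem_nil, or_false] at hh'
      rcases hh' with rfl | rfl
      · exact hh
      · exact hp), rfl⟩
  have hmL : ∀ p, Sum.inr p ∈ N → ∀ w ∈ Z, mL (K p) w ∈ Z := by
    rintro p hp _ ⟨h, hh, rfl⟩
    exact ⟨_, hN 3 [h, Sum.inr p] (by
      intro h' hh'
      simp only [List.mem_cons, List.not_mem_nil, or_false] at hh'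
      rcases hh' with rfl | rfl
      · exact hh
      · exact hp), rfl⟩
  have hphi : ∀ p, Sum.inr p ∈ N → Closed (Phi (K p)) Z := by
    intro p hp n l hl
    have h1 : ∃ l' : List (HH K), (∀ h ∈ l', h ∈ N) ∧ l'.map (cc K) = l := by
      clear hmR hmL
      induction l with
      | nil => exact ⟨[], by simp, rfl⟩
      | cons a t ih =>
        obtain ⟨l', h1, h2⟩ := ih (fun h hh => hl h (List.mem_cons_of_mem _ hh))
        obtain ⟨h, hh, rfl⟩ := hl a (List.mem_cons_self)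
        refine ⟨h :: l', ?_, by simp [h2]⟩
        intro h' hh'
        rcases List.mem_cons.1 hh' with rfl | h3
        · exact hh
        · exact h1 _ h3
    obtain ⟨l', h1, rfl⟩ := h1
    exact ⟨_, hN (n + 4) (Sum.inr p :: l') (by
      intro h' hh'
      rcases List.mem_cons.1 hh' with rfl | h3
      · exact hp
      · exact h1 _ h3), rfl⟩
  -- the large family
  set MJ : Set (LowerSet L) := ⋃ p : {p // Sum.inr p ∈ N}, K p.1 with hMJ
  have hne : Nonempty {p // (Sum.inr p : HH K) ∈ N} :=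
    ⟨⟨_, hrk _ (hN 0 [] (by simp))⟩⟩
  have hZM : Z ⊆ MJ := by
    rintro _ ⟨h, hh, rfl⟩
    exact mem_iUnion.2 ⟨⟨_, hrk h hh⟩, rk_mem K hbot h⟩
  have hMJcl : ∀ i, Closed (F i) MJ := by
    intro i n l hl
    have h1 : ∃ p : {p // (Sum.inr p : HH K) ∈ N}, ∀ h ∈ l, h ∈ K p.1 := by
      induction l with
      | nil => exact ⟨hne.some, by simp⟩
      | cons a t ih =>
        obtain ⟨p, hp⟩ := ih (fun h hh => hl h (List.mem_cons_of_mem _ hh))
        obtain ⟨q, hq⟩ := mem_iUnion.1 (hl a (List.mem_cons_self))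
        rcases le_total p.1 q.1 with hpq | hpq
        · refine ⟨q, fun h hh => ?_⟩
          rcases List.mem_cons.1 hh with rfl | h3
          · exact hq
          · exact hmono _ _ hpq (hp _ h3)
        · refine ⟨p, fun h hh => ?_⟩
          rcases List.mem_cons.1 hh with rfl | h3
          · exact hmono _ _ hpq hq
          · exact hp _ h3
    obtain ⟨p, hp⟩ := h1
    exact mem_iUnion.2 ⟨p, hclF p.1 i n l hp⟩
  obtain ⟨i, hi⟩ := hcov x
  obtain ⟨z, hz | hz⟩ := hF i MJ (hMJcl i) x hi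
  · by_cases hzZ : z ∈ Z
    · exact ⟨z, Or.inl (hz.anti hZM hzZ)⟩
    · obtain ⟨p, hp⟩ := mem_iUnion.1 hz.1
      have hKM : K p.1 ⊆ MJ := subset_iUnion (fun p : {p // Sum.inr p ∈ N} => K p.1) p
      have hxI : x ∈ IR (K p.1) z := ⟨hz.2.1, fun C' hC' => hz.2.2 C' (hKM hC')⟩
      obtain ⟨g, hg1, hg2⟩ := exists_GR hp ⟨x, hxI⟩
      have hgZ : Cap Z g := Phi_spec (hG p.1) Z (hphi p.1 p.2) g hg1
      exact capR_transfer hZM hp hzZ hz hg2 hgZ (hmR p.1 p.2)
  · by_cases hzZ : z ∈ Z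
    · exact ⟨z, Or.inr (hz.anti hZM hzZ)⟩
    · obtain ⟨p, hp⟩ := mem_iUnion.1 hz.1
      have hKM : K p.1 ⊆ MJ := subset_iUnion (fun p : {p // Sum.inr p ∈ N} => K p.1) p
      have hxI : x ∈ IL (K p.1) z := ⟨hz.2.1, fun C' hC' => hz.2.2 C' (hKM hC')⟩
      obtain ⟨g, hg1, hg2⟩ := exists_GL hp ⟨x, hxI⟩
      have hgZ : Cap Z g := Phi_spec (hG p.1) Z (hphi p.1 p.2) g hg1
      exact capL_transfer hZM hp hzZ hz hg2 hgZ (hmL p.1 p.2)

/-- If every set of fewer than `#L` points is sigma-scattered and `L` is covered by fewer than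
`#L` sigma-scattered sets, then `L` is sigma-scattered. -/
theorem ss_of_cover {I : Type u} (A : I → Set L) (hA : ∀ i, SS (A i)) (hI : #I < #L)
    (hcov : ∀ x, ∃ i, x ∈ A i) (hsmall : ∀ B : Set L, #B < #L → SS B) :
    SS (Set.univ : Set L) := by
  by_cases hc : #L ≤ ℵ₀
  · have : Countable L := Cardinal.mk_le_aleph0_iff.1 hc
    exact ss_of_countable (Set.to_countable _)
  · have hc' : ℵ₀ < #L := not_le.1 hc
    choose F hF using fun i => (hA i).good
    obtain ⟨e⟩ : Nonempty ((#L).ord.ToType ≃ L) := Cardinal.eq.1 (mk_ord_toType _)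
    have : NoMaxOrder (#L).ord.ToType := Cardinal.noMaxOrder hc'.le
    have hne : Nonempty (#L).ord.ToType := by
      rw [← mk_ne_zero_iff, mk_ord_toType]
      exact (lt_of_le_of_lt (zero_le) hc').ne'
    have hsize : ∀ p, #(KK F (fun p => e p) p) < #L := by
      intro p
      refine lt_of_le_of_lt (mk_KK_le F _ p) (max_lt (max_lt ?_ hI) hc')
      exact mk_Iio_toType_ord_lt p
    refine ss_of_chain A F hF hcov (KK F (fun p => e p)) (fun p q h => KK_mono F _ h)
      (fun p => KK_bot F _ p) ?_ ?_ (fun p i => KK_closedF F _ p i) ?_ ?_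
    · intro x
      refine mem_iUnion.2 ⟨e.symm x, ?_⟩
      have := KK_Iic F (fun p => e p) (e.symm x)
      simpa using this
    · intro x
      refine mem_iUnion.2 ⟨e.symm x, ?_⟩
      have := KK_Iio F (fun p => e p) (e.symm x)
      simpa using this
    · intro p
      refine (hsmall _ (lt_of_le_of_lt (mk_GG_le _ (max #(KK F (fun p => e p) p) ℵ₀)
        (le_max_right _ _) (le_max_left _ _)) (max_lt (hsize p) hc'))).good
    · intro p n l hl
      have h1 : ∃ q, p < q ∧ ∀ h ∈ l, h ∈ KK F (fun p => e p) q := by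
        induction l with
        | nil =>
          obtain ⟨q, hq⟩ := exists_gt p
          exact ⟨q, hq, by simp⟩
        | cons a t ih =>
          obtain ⟨q, hq1, hq2⟩ := ih (fun h hh => hl h (List.mem_cons_of_mem _ hh))
          obtain ⟨r, hr⟩ := mem_iUnion.1 (hl a (List.mem_cons_self))
          refine ⟨max q r, lt_of_lt_of_le hq1 (le_max_left _ _), fun h hh => ?_⟩
          rcases List.mem_cons.1 hh with rfl | h3
          · exact KK_mono F _ (le_max_right _ _) hr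
          · exact KK_mono F _ (le_max_left _ _) (hq2 _ h3)
      obtain ⟨q, hq1, hq2⟩ := h1
      exact mem_iUnion.2 ⟨q, KK_closedPhi F _ hq1 n l hq2⟩

end Pool.Agent.SSC
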