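import Pool.Agent.SSC.Final

set_option autoImplicit false

open Set Cardinal

namespace Pool.Agent.SSC

universe u

variable {L : Type u} [LinearOrder L]

/-- `K` separates the points of `A` -/
def Sep (K : Set (LowerSet L)) (A : Set L) : Prop :=
  ∀ x ∈ A, ∀ y ∈ A, x < y → ∃ C ∈ K, x ∈ C ∧ y ∉ C

theorem Sep.anti {K : Set (LowerSet L)} {A B : Set L} (h : A ⊆ B) (hB : Sep K B) : Sep K A :=
  fun x hx y hy hxy => hB x (h hx) y (h hy) hxy

theorem capR_sep {K N : Set (LowerSet L)} {A : Set L} (hsep : Sep K A) (hKN : K ⊆ N) {x y : L}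
    (hx : x ∈ A) (hy : y ∈ A) (hxy : x < y) {C : LowerSet L} (h1 : CapR N x C)
    (h2 : CapR N y C) : False := by
  obtain ⟨C', hC', h3, h4⟩ := hsep x hx y hy hxy
  refine h4 (h2.2.2 C' (hKN hC') ?_)
  rw [lt_iff_not_ge]
  intro h5
  exact h1.2.1 (h5 h3)

theorem capL_sep {K N : Set (LowerSet L)} {A : Set L} (hsep : Sep K A) (hKN : K ⊆ N) {x y : L}
    (hx : x ∈ A) (hy : y ∈ A) (hxy : x < y) {C : LowerSet L} (h1 : CapL N x C)
    (h2 : CapL N y C) : False := by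
  obtain ⟨C', hC', h3, h4⟩ := hsep x hx y hy hxy
  refine h1.2.2 C' (hKN hC') ?_ h3
  rw [lt_iff_not_ge]
  intro h5
  exact h4 (h5 h2.2.1)

/-- counting lemma: a sigma-scattered set has at most as many points as a separating family -/
theorem mk_le_of_sep {K : Set (LowerSet L)} {A : Set L} (hA : SS A) (hsep : Sep K A)
    {μ : Cardinal.{u}} (h0 : ℵ₀ ≤ μ) (hK : #K ≤ μ) : #A ≤ μ := by
  classical
  obtain ⟨F, hF⟩ := hA.good
  set F' : ULift.{u} ℕ → List (LowerSet L) → LowerSet L := fun i => F i.down with hF'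
  set N := cloC F' K with hNdef
  have hKN : K ⊆ N := subset_cloC F' K
  have hN : Closed F N := fun i l hl => cloC_closed F' K ⟨i⟩ l hl
  have hNμ : #N ≤ μ := mk_cloC_le F' K μ h0 hK (by simpa using h0)
  have hcap : ∀ x : A, Cap N x.1 := fun x => hF N hN x.1 x.2
  choose C hC using hcap
  have hCN : ∀ x, C x ∈ N := fun x => (hC x).elim (fun h => h.1) (fun h => h.1)
  let φ : A → N × ULift.{u} Bool := fun x => (⟨C x, hCN x⟩, ⟨decide (CapR N x (C x))⟩)
  have hlt : ∀ x y : A, x.1 < y.1 → φ x ≠ φ y := by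
    intro x y hxy he
    have h1 : C x = C y := congrArg Subtype.val (congrArg Prod.fst he)
    have h2 : (CapR N x.1 (C x)) ↔ (CapR N y.1 (C y)) := by
      have := congrArg ULift.down (congrArg Prod.snd he)
      simpa [φ] using this
    by_cases h3 : CapR N x.1 (C x)
    · refine capR_sep hsep hKN x.2 y.2 hxy h3 ?_
      rw [h1]
      exact h2.1 h3
    · have h4 := (hC x).resolve_left h3
      have h5 := (hC y).resolve_left (fun h => h3 (h2.2 h))
      refine capL_sep hsep hKN x.2 y.2 hxy h4 ?_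
      rw [h1]
      exact h5
  have hinj : Function.Injective φ := by
    intro x y he
    rcases lt_trichotomy x.1 y.1 with h | h | h
    · exact absurd he (hlt x y h)
    · exact Subtype.ext h
    · exact absurd he.symm (hlt y x h)
  refine (mk_le_of_injective hinj).trans ?_
  rw [mk_prod]
  simp only [lift_id]
  refine (mul_le_mul' hNμ (?_ : #(ULift.{u} Bool) ≤ μ)).trans (mul_eq_self h0).le
  refine le_trans ?_ h0
  exact mk_le_aleph0

/-- points not separated by `K` -/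
def gapSetoid (K : Set (LowerSet L)) : Setoid L where
  r x y := ∀ C ∈ K, x ∈ C ↔ y ∈ C
  iseqv := ⟨fun _ _ _ => Iff.rfl, fun h C hC => (h C hC).symm,
    fun h h' C hC => (h C hC).trans (h' C hC)⟩

/-- one point in every gap of `K` -/
noncomputable def Tr (K : Set (LowerSet L)) : Set L :=
  Set.range (fun q : Quotient (gapSetoid K) => q.out)

theorem exists_Tr (K : Set (LowerSet L)) (x : L) : ∃ y ∈ Tr K, ∀ C ∈ K, y ∈ C ↔ x ∈ C :=
  ⟨_, ⟨Quotient.mk (gapSetoid K) x, rfl⟩, Quotient.mk_out (s := gapSetoid K) x⟩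

theorem Tr_sep (K : Set (LowerSet L)) : Sep K (Tr K) := by
  rintro x ⟨q, rfl⟩ y ⟨q', rfl⟩ hxy
  by_contra hno
  push Not at hno
  have h1 : (gapSetoid K).r q.out q'.out := fun C hC =>
    ⟨fun h => hno C hC h, fun h => C.lower hxy.le h⟩
  have h2 : q = q' := by
    rw [← q.out_eq, ← q'.out_eq]
    exact Quotient.sound h1
  rw [h2] at hxy
  exact lt_irrefl _ hxy

theorem mk_Tr_le (hsmall : ∀ B : Set L, #B < #L → SS B) {K : Set (LowerSet L)}
    {μ : Cardinal.{u}} (h0 : ℵ₀ ≤ μ) (hK : #K ≤ μ) (hμ : Order.succ μ < #L) :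
    #(Tr K) ≤ μ := by
  by_contra h
  rw [not_le] at h
  obtain ⟨A, hA, hA'⟩ := le_mk_iff_exists_subset.1 (Order.succ_le_of_lt h)
  have h1 := mk_le_of_sep (hsmall A (by rw [hA']; exact hμ)) ((Tr_sep K).anti hA) h0 hK
  rw [hA'] at h1
  exact absurd (Order.lt_succ μ) (not_lt.2 h1)

/-- the cuts at the points of `D` -/
def cuts (D : Set L) : Set (LowerSet L) := LowerSet.Iic '' D ∪ LowerSet.Iio '' D

theorem cuts_mono {D E : Set L} (h : D ⊆ E) : cuts D ⊆ cuts E :=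
  union_subset_union (image_mono h) (image_mono h)

theorem mk_cuts_le (D : Set L) {μ : Cardinal.{u}} (h0 : ℵ₀ ≤ μ) (h : #D ≤ μ) : #(cuts D) ≤ μ :=
  (mk_union_le _ _).trans ((add_le_add (mk_image_le.trans h) (mk_image_le.trans h)).trans
    (add_eq_self h0).le)

/-- weakly dense sets of points -/
def WD (D : Set L) : Prop := ∀ x y : L, x < y → ∃ d ∈ D, x ≤ d ∧ d ≤ y

theorem WD.sep {D : Set L} (hD : WD D) (A : Set L) : Sep (cuts D) A := by
  intro x _ y _ hxy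
  obtain ⟨d, hd, h1, h2⟩ := hD x y hxy
  rcases h2.lt_or_eq with h3 | h3
  · exact ⟨LowerSet.Iic d, Or.inl ⟨d, hd, rfl⟩, LowerSet.mem_Iic_iff.2 h1,
      fun h => absurd h3 (not_lt.2 (LowerSet.mem_Iic_iff.1 h))⟩
  · exact ⟨LowerSet.Iio d, Or.inr ⟨d, hd, rfl⟩, LowerSet.mem_Iio_iff.2 (h3 ▸ hxy),
      fun h => absurd (LowerSet.mem_Iio_iff.1 h) (by rw [h3]; exact lt_irrefl _)⟩

theorem WD.infinite {D : Set L} (hD : WD D) (hL : ¬ SS (univ : Set L)) : ℵ₀ ≤ #D := by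
  by_contra h
  rw [not_le, lt_aleph0_iff_set_finite] at h
  have h1 : (cuts D).Finite := (h.image _).union (h.image _)
  have : Finite (cuts D) := h1
  have h2 : Function.Injective (fun x : L => {C : cuts D | x ∈ C.1}) := by
    have h3 : ∀ x y : L, x < y → {C : cuts D | x ∈ C.1} ≠ {C : cuts D | y ∈ C.1} := by
      intro x y hxy he
      obtain ⟨C, hC, h4, h5⟩ := hD.sep univ x (mem_univ _) y (mem_univ _) hxy
      have h6 : (⟨C, hC⟩ : cuts D) ∈ {C : cuts D | x ∈ C.1} := h4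
      rw [he] at h6
      exact h5 h6
    intro x y he
    rcases lt_trichotomy x y with h | h | h
    · exact absurd he (h3 x y h)
    · exact h
    · exact absurd he.symm (h3 y x h)
  have h4 : Finite L := Finite.of_injective _ h2
  exact hL (ss_of_countable (Set.to_countable _))

theorem WD.mk_le {D : Set L} (hD : WD D) (hL : ¬ SS (univ : Set L)) {A : Set L} (hA : SS A) :
    #A ≤ #D :=
  mk_le_of_sep hA (hD.sep A) (hD.infinite hL) (mk_cuts_le D (hD.infinite hL) le_rfl)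

theorem WD.mk_eq_succ {D : Set L} (hD : WD D) (hL : ¬ SS (univ : Set L))
    (hsmall : ∀ B : Set L, #B < #L → SS B) (hlt : #D < #L) : #L = Order.succ #D := by
  refine le_antisymm ?_ (Order.succ_le_of_lt hlt)
  by_contra h
  rw [not_le] at h
  obtain ⟨A, -, hA'⟩ : ∃ A : Set L, A ⊆ univ ∧ #A = Order.succ #D :=
    le_mk_iff_exists_subset.1 (by rw [mk_univ]; exact h.le)
  have h1 := hD.mk_le hL (hsmall A (by rw [hA']; exact h))
  rw [hA'] at h1
  exact absurd (Order.lt_succ _) (not_lt.2 h1)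

theorem WD.cof_eq {D : Set L} (hD : WD D) (hL : ¬ SS (univ : Set L))
    (hsmall : ∀ B : Set L, #B < #L → SS B) (hlt : #D < #L) : (#D).ord.cof = ℵ₀ := by
  classical
  have hinf := hD.infinite hL
  by_contra hcof
  have hcof' : ℵ₀ < (#D).ord.cof := by
    refine lt_of_le_of_ne ?_ (Ne.symm hcof)
    rw [Ordinal.aleph0_le_cof]
    exact Cardinal.isSuccLimit_ord hinf
  have hunc : ℵ₀ < #D := lt_of_lt_of_le hcof' (Ordinal.cof_ord_le _)
  set P := (#D).ord.ToType with hP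
  obtain ⟨e⟩ : Nonempty (P ≃ D) := Cardinal.eq.1 (mk_ord_toType _)
  set K : P → Set (LowerSet L) := fun p => cuts ((fun q => (e q : L)) '' (Iic p)) with hK
  have hKmono : ∀ {p q : P}, p ≤ q → K p ⊆ K q := fun {p q} h =>
    cuts_mono (image_mono (Iic_subset_Iic.2 h))
  have hKmem : ∀ C ∈ cuts D, ∃ p, C ∈ K p := by
    rintro C (⟨d, hd, rfl⟩ | ⟨d, hd, rfl⟩)
    · exact ⟨e.symm ⟨d, hd⟩, Or.inl ⟨d, ⟨e.symm ⟨d, hd⟩, self_mem_Iic, by simp⟩, rfl⟩⟩
    · exact ⟨e.symm ⟨d, hd⟩, Or.inr ⟨d, ⟨e.symm ⟨d, hd⟩, self_mem_Iic, by simp⟩, rfl⟩⟩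
  have hKlt : ∀ p, max ℵ₀ #(K p) < #D := by
    intro p
    refine max_lt hunc ?_
    have h1 : #(Iic p) < #D := by
      have : NoMaxOrder P := Cardinal.noMaxOrder hinf
      obtain ⟨q, hq⟩ := exists_gt p
      refine lt_of_le_of_lt (mk_le_mk_of_subset (t := Iio q) (fun r hr => lt_of_le_of_lt hr hq)) ?_
      exact mk_Iio_toType_ord_lt q
    refine (mk_union_le _ _).trans_lt ?_
    refine add_lt_of_lt hinf ?_ ?_
    · exact (mk_image_le.trans mk_image_le).trans_lt h1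
    · exact (mk_image_le.trans mk_image_le).trans_lt h1
  have hTr : ∀ p, #(Tr (K p)) ≤ #D := by
    intro p
    refine (mk_Tr_le hsmall (le_max_left _ _) (le_max_right _ _) ?_).trans (hKlt p).le
    exact (Order.succ_le_of_lt (hKlt p)).trans_lt hlt
  set D' : Set L := ⋃ p, Tr (K p) with hD'
  have hD'card : #D' ≤ #D := by
    refine (mk_iUnion_le _).trans ?_
    refine (mul_le_mul' (mk_ord_toType _).le (ciSup_le' hTr)).trans ?_
    rw [mul_eq_self hinf]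
  obtain ⟨F, hF⟩ := (hsmall D' (hD'card.trans_lt hlt)).good
  refine hL (thmA F id LowerSet.Iic LowerSet.Iio (fun _ => rfl) (fun _ => rfl) ?_)
  intro N hN hNc x
  rw [image_id]
  -- a bound for the ranks of the pairs
  set r : LowerSet L × LowerSet L → P := fun z =>
    if h : ∃ p, ∃ C ∈ K p, z.1 < C ∧ C < z.2 then h.choose else e.symm (e (Classical.choice
      (mk_ne_zero_iff.1 (by
        rw [hP, mk_ord_toType]
        exact (aleph0_pos.trans_le hinf).ne' : #P ≠ 0)))) with hr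
  have hrspec : ∀ z z' : LowerSet L, (∃ C ∈ cuts D, z < C ∧ C < z') →
      ∃ C ∈ K (r (z, z')), z < C ∧ C < z' := by
    rintro z z' ⟨C, hC, h1, h2⟩
    obtain ⟨p, hp⟩ := hKmem C hC
    have h : ∃ p, ∃ C ∈ K p, z < C ∧ C < z' := ⟨p, C, hp, h1, h2⟩
    have h3 : r (z, z') = h.choose := by
      rw [hr]
      exact dif_pos h
    rw [h3]
    exact h.choose_spec
  obtain ⟨δ, hδ⟩ : ∃ δ : P, ∀ z ∈ N, ∀ z' ∈ N, r (z, z') ≤ δ := by
    have hcs : (r '' (N ×ˢ N)).Countable := (hN.prod hN).image r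
    have hnc : ¬ IsCofinal (r '' (N ×ˢ N)) := by
      intro hc
      have h1 := Order.cof_le hc
      rw [Ordinal.cof_toType] at h1
      have h2 : #(r '' (N ×ˢ N)) ≤ ℵ₀ := hcs.le_aleph0
      exact absurd hcof' (not_lt.2 (h1.trans h2))
    unfold IsCofinal at hnc
    push Not at hnc
    obtain ⟨δ, hδ⟩ := hnc
    exact ⟨δ, fun z hz z' hz' => (hδ _ ⟨(z, z'), ⟨hz, hz'⟩, rfl⟩).le⟩
  obtain ⟨y, hy, hyx⟩ := exists_Tr (K δ) x
  have hycap : Cap N y := hF N hNc y (mem_iUnion.2 ⟨δ, hy⟩)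
  -- two cuts of `N` in the gap of `x` differ by at most two points
  have key3 : ∀ z ∈ N, ∀ z' ∈ N, (∃ p0, (∀ C ∈ K δ, p0 ∈ C ↔ x ∈ C) ∧ p0 ∈ z) →
      (∃ q0, (∀ C ∈ K δ, q0 ∈ C ↔ x ∈ C) ∧ q0 ∉ z') → ∀ p q s : L, p < q → q < s → p ∉ z →
      s ∈ z' → False := by
    rintro z hz z' hz' ⟨p0, hp0, hp0z⟩ ⟨q0, hq0, hq0z⟩ p q s hpq hqs hp hs
    obtain ⟨d, hd, h1, h2⟩ := hD p q hpq
    obtain ⟨C, hC, h3, h4⟩ := hrspec z z' ⟨LowerSet.Iic d, Or.inl ⟨d, hd, rfl⟩, by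
      rw [lt_iff_not_ge]
      intro h
      exact hp (h (LowerSet.mem_Iic_iff.2 h1)), by
      rw [lt_iff_not_ge]
      intro h
      exact absurd (h2.trans_lt hqs) (not_lt.2 (LowerSet.mem_Iic_iff.1 (h hs)))⟩
    have hC' : C ∈ K δ := hKmono (hδ z hz z' hz') hC
    have h5 : p0 ∈ C := h3.le hp0z
    have h6 : q0 ∉ C := fun h => hq0z (h4.le h)
    exact h6 ((hq0 C hC').2 ((hp0 C hC').1 h5))
  have hpick : ∀ z z' : LowerSet L, z < z' → ∃ p, p ∈ z' ∧ p ∉ z := by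
    intro z z' h
    by_contra hno
    push Not at hno
    exact absurd h (not_lt.2 (fun p hp => hno p hp))
  have hltof : ∀ (z : LowerSet L) (p q : L), p ∈ z → q ∉ z → p < q := by
    intro z p q hp hq
    by_contra h
    exact hq (z.lower (not_lt.1 h) hp)
  by_cases hi : ∃ z ∈ N, x ∉ z ∧ y ∈ z
  · obtain ⟨z0, hz0, hxz0, hyz0⟩ := hi
    by_contra hno
    have hstep : ∀ C ∈ N, x ∉ C → ∃ C' ∈ N, C < C' ∧ x ∉ C' := by
      intro C hC hxC
      by_contra h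
      push Not at h
      exact hno ⟨C, Or.inl ⟨hC, hxC, h⟩⟩
    obtain ⟨z1, hz1, h01, hxz1⟩ := hstep z0 hz0 hxz0
    obtain ⟨z2, hz2, h12, hxz2⟩ := hstep z1 hz1 hxz1
    obtain ⟨z3, hz3, h23, hxz3⟩ := hstep z2 hz2 hxz2
    obtain ⟨p, hp1, hp0⟩ := hpick z0 z1 h01
    obtain ⟨q, hq2, hq1⟩ := hpick z1 z2 h12
    obtain ⟨s, hs3, hs2⟩ := hpick z2 z3 h23
    exact key3 z0 hz0 z3 hz3 ⟨y, hyx, hyz0⟩ ⟨x, fun _ _ => Iff.rfl, hxz3⟩ p q s
      (hltof z1 p q hp1 hq1) (hltof z2 q s hq2 hs2) hp0 hs3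
  · by_cases hii : ∃ z ∈ N, x ∈ z ∧ y ∉ z
    · obtain ⟨z0, hz0, hxz0, hyz0⟩ := hii
      by_contra hno
      have hstep : ∀ C ∈ N, x ∈ C → ∃ C' ∈ N, C' < C ∧ x ∈ C' := by
        intro C hC hxC
        by_contra h
        push Not at h
        exact hno ⟨C, Or.inr ⟨hC, hxC, h⟩⟩
      obtain ⟨z1, hz1, h01, hxz1⟩ := hstep z0 hz0 hxz0
      obtain ⟨z2, hz2, h12, hxz2⟩ := hstep z1 hz1 hxz1
      obtain ⟨z3, hz3, h23, hxz3⟩ := hstep z2 hz2 hxz2
      obtain ⟨s, hs0, hs1⟩ := hpick z1 z0 h01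
      obtain ⟨q, hq1, hq2⟩ := hpick z2 z1 h12
      obtain ⟨p, hp2, hp3⟩ := hpick z3 z2 h23
      exact key3 z3 hz3 z0 hz0 ⟨x, fun _ _ => Iff.rfl, hxz3⟩ ⟨y, hyx, hyz0⟩ p q s
        (hltof z2 p q hp2 hq2) (hltof z1 q s hq1 hs1) hp3 hs0
    · have hxy : ∀ z ∈ N, y ∈ z ↔ x ∈ z := by
        intro z hz
        constructor
        · intro h
          by_contra h'
          exact hi ⟨z, hz, h', h⟩
        · intro h
          by_contra h'
          exact hii ⟨z, hz, h, h'⟩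
      obtain ⟨C, hC | hC⟩ := hycap
      · exact ⟨C, Or.inl ⟨hC.1, fun h => hC.2.1 ((hxy C hC.1).2 h),
          fun C' hC' hlt' => (hxy C' hC').1 (hC.2.2 C' hC' hlt')⟩⟩
      · exact ⟨C, Or.inr ⟨hC.1, (hxy C hC.1).1 hC.2.1,
          fun C' hC' hlt' h => hC.2.2 C' hC' hlt' ((hxy C' hC').2 h)⟩⟩

end Pool.Agent.SSC
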