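import Pool.Agent.SSC.Dens

set_option autoImplicit false

open Set Cardinal

namespace Pool.Agent.SSC

universe u

variable {L : Type u} [LinearOrder L]

/-- injective choice functions -/
theorem exists_inj_choice {Q : Type u} [LinearOrder Q] [WellFoundedLT Q] {M : Type u}
    (S : Q → Set M) (h : ∀ q, #(Iio q) < #(S q)) :
    ∃ u : Q → M, Function.Injective u ∧ ∀ q, u q ∈ S q := by
  classical
  have hne : ∀ q, (S q).Nonempty := by
    intro q
    by_contra hn
    rw [not_nonempty_iff_eq_empty] at hn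
    have := h q
    rw [hn, mk_emptyCollection] at this
    exact absurd this (not_lt.2 bot_le)
  have hex : ∀ (q : Q) (v : Iio q → M), ∃ m ∈ S q, ∀ r, v r ≠ m := by
    intro q v
    by_contra hno
    push Not at hno
    have h1 : S q ⊆ range v := fun m hm => hno m hm
    exact absurd (h q) (not_lt.2 ((mk_le_mk_of_subset h1).trans mk_range_le))
  choose w hw1 hw2 using hex
  let u : Q → M := WellFounded.fix (wellFounded_lt (α := Q)) (fun q v => w q (fun r => v r.1 r.2))
  have hu : ∀ q, u q = w q (fun r => u r.1) := fun q =>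
    WellFounded.fix_eq (wellFounded_lt (α := Q)) _ q
  have hlt : ∀ r q, r < q → u r ≠ u q := by
    intro r q hrq
    rw [hu q]
    exact hw2 q (fun r => u r.1) ⟨r, hrq⟩
  refine ⟨u, fun r q he => ?_, fun q => ?_⟩
  · rcases lt_trichotomy r q with h1 | h1 | h1
    · exact absurd he (hlt r q h1)
    · exact h1
    · exact absurd he.symm (hlt q r h1)
  · rw [hu q]
    exact hw1 q _

/-- a set of size `#M` which contains no member of a family of at most `#M` sets of size `#M` -/
theorem exists_avoid {M Q : Type u} (hM : ℵ₀ ≤ #M) (hQ : #Q = #M) (S : Q → Set M)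
    (hS : ∀ q, #(S q) = #M) : ∃ A : Set M, #A = #M ∧ ∀ q, ¬ S q ⊆ A := by
  classical
  have h1 : #((#M).ord.ToType) = #(Q × ULift.{u} Bool) := by
    rw [mk_ord_toType, mk_prod, hQ]
    simp only [lift_id]
    refine (mul_eq_left hM ?_ ?_).symm
    · exact le_trans mk_le_aleph0 hM
    · exact mk_ne_zero _
  obtain ⟨e⟩ := Cardinal.eq.1 h1
  obtain ⟨u, hu, huS⟩ := exists_inj_choice (Q := (#M).ord.ToType)
    (fun r => if (e r).2.down = true then S (e r).1 else univ) (by
      intro q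
      have h2 : #(Iio q) < #M := mk_Iio_toType_ord_lt q
      split_ifs
      · rw [hS]; exact h2
      · rw [mk_univ]; exact h2)
  refine ⟨u '' {r | (e r).2.down = false}, ?_, fun q hq => ?_⟩
  · rw [mk_image_eq hu]
    refine le_antisymm ((mk_set_le _).trans (mk_ord_toType _).le) ?_
    refine hQ.symm.le.trans ?_
    refine mk_le_of_injective (f := fun q : Q => (⟨e.symm (q, ⟨false⟩), by simp⟩ :
      {r | (e r).2.down = false})) ?_
    intro q q' h
    have h3 := congrArg Subtype.val h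
    have h4 := e.symm.injective h3
    exact congrArg Prod.fst h4
  · have h3 := huS (e.symm (q, ⟨true⟩))
    simp only [Equiv.apply_symm_apply, if_true] at h3
    obtain ⟨r, hr, hr2⟩ := hq h3
    have h4 := hu hr2
    rw [h4] at hr
    simp at hr

/-- `y` is a possible value at `x` of an increasing extension of `f` -/
def PV {D : Set L} (f : D → L) (x y : L) : Prop :=
  ∀ d : D, (d.1 < x → f d < y) ∧ (x < d.1 → y < f d)

/-- the values that are determined by `f` -/
def Det {D : Set L} (f : D → L) : Set L := {y | ∃ x, PV f x y ∧ ∀ y', PV f x y' → y' = y}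

theorem Det_subset {D : Set L} {g : L → L} (hg : StrictMono g) :
    Det (fun d : D => g d.1) ⊆ range g := by
  rintro y ⟨x, -, h⟩
  exact ⟨x, h (g x) (fun d => ⟨fun hd => hg hd, fun hd => hg hd⟩)⟩

theorem mk_bad_le {D : Set L} (hD : WD D) (f : D → L) :
    #{x : L | x ∉ D ∧ ∃ y y', y < y' ∧ PV f x y ∧ PV f x y'} ≤ #D := by
  classical
  have hsel : ∀ x : {x : L | x ∉ D ∧ ∃ y y', y < y' ∧ PV f x y ∧ PV f x y'}, ∃ d : D,
      ∃ y y', y < y' ∧ PV f x.1 y ∧ PV f x.1 y' ∧ y ≤ d.1 ∧ d.1 ≤ y' := by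
    rintro ⟨x, hx, y, y', hyy, h1, h2⟩
    obtain ⟨d, hd, h3, h4⟩ := hD y y' hyy
    exact ⟨⟨d, hd⟩, y, y', hyy, h1, h2, h3, h4⟩
  choose d hd using hsel
  have hlt : ∀ x x' : {x : L | x ∉ D ∧ ∃ y y', y < y' ∧ PV f x y ∧ PV f x y'}, x.1 < x'.1 →
      d x ≠ d x' := by
    intro x x' hxx he
    obtain ⟨y, y', hyy, h1, h2, h3, h4⟩ := hd x
    obtain ⟨w, w', hww, h1', h2', h3', h4'⟩ := hd x'
    obtain ⟨c, hc, hxc, hcx⟩ := hD x.1 x'.1 hxx
    have hxc' : x.1 < c := lt_of_le_of_ne hxc (fun h => x.2.1 (h ▸ hc))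
    have hcx' : c < x'.1 := lt_of_le_of_ne hcx (fun h => x'.2.1 (h ▸ hc))
    have h5 : y' < f ⟨c, hc⟩ := (h2 ⟨c, hc⟩).2 hxc'
    have h6 : f ⟨c, hc⟩ < w := (h1' ⟨c, hc⟩).1 hcx'
    have h7 : (d x).1 < (d x').1 := lt_of_le_of_lt h4 (h5.trans (lt_of_lt_of_le h6 h3'))
    rw [he] at h7
    exact lt_irrefl _ h7
  refine mk_le_of_injective (f := d) ?_
  intro x x' he
  rcases lt_trichotomy x.1 x'.1 with h | h | h
  · exact absurd he (hlt x x' h)
  · exact Subtype.ext h
  · exact absurd he.symm (hlt x' x h)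

theorem mk_Det {D : Set L} (hD : WD D) (h0 : ℵ₀ ≤ #D) (hlt : #D < #L) {g : L → L}
    (hg : StrictMono g) : #(Det (fun d : D => g d.1)) = #L := by
  classical
  set f : D → L := fun d => g d.1 with hf
  refine le_antisymm (mk_set_le _) ?_
  set B : Set L := {x : L | x ∉ D ∧ ∃ y y', y < y' ∧ PV f x y ∧ PV f x y'} with hB
  have hg' : ∀ x, PV f x (g x) := fun x d => ⟨fun hd => hg hd, fun hd => hg hd⟩
  have h1 : (range g) ⊆ Det f ∪ g '' (D ∪ B) := by
    rintro _ ⟨x, rfl⟩
    by_cases hx : x ∈ D ∪ B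
    · exact Or.inr ⟨x, hx, rfl⟩
    · refine Or.inl ⟨x, hg' x, fun y' hy' => ?_⟩
      by_contra hne
      apply hx
      refine Or.inr ⟨fun h => hx (Or.inl h), ?_⟩
      rcases lt_or_gt_of_ne hne with h | h
      · exact ⟨y', g x, h, hy', hg' x⟩
      · exact ⟨g x, y', h, hg' x, hy'⟩
  have h2 : #L ≤ #(Det f) + #D := by
    calc #L = #(range g) := (mk_range_eq g hg.injective).symm
      _ ≤ #(Det f ∪ g '' (D ∪ B) : Set L) := mk_le_mk_of_subset h1
      _ ≤ #(Det f) + #(g '' (D ∪ B)) := mk_union_le _ _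
      _ ≤ #(Det f) + (#D + #D) := by
          refine add_le_add le_rfl (mk_image_le.trans ((mk_union_le _ _).trans ?_))
          exact add_le_add le_rfl (mk_bad_le hD f)
      _ = #(Det f) + #D := by rw [add_eq_self h0]
  by_contra h
  rw [not_le] at h
  exact absurd (h2.trans_lt (add_lt_of_lt (h0.trans hlt.le) h hlt)) (lt_irrefl _)

/-- Sierpinski's diagonalisation -/
theorem WD.succ_lt {D : Set L} (hD : WD D) (h0 : ℵ₀ ≤ #D) (hsucc : #L = Order.succ #D)
    (hemb : ∀ A : Set L, #A = #L → ∃ g : L → L, StrictMono g ∧ ∀ x, g x ∈ A) :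
    #L < 2 ^ #D := by
  classical
  rw [hsucc]
  refine lt_of_le_of_ne (Order.succ_le_of_lt (cantor _)) (fun he => ?_)
  rw [← hsucc] at he
  have hlt : #D < #L := by rw [hsucc]; exact Order.lt_succ _
  have hcard : #(D → L) = #L := by
    rw [← power_def, he, ← power_mul, mul_eq_self h0]
  obtain ⟨A, hA, hAno⟩ := exists_avoid (M := L) (Q := D → L) (h0.trans hlt.le) hcard
    (fun f => if #(Det f) = #L then Det f else univ) (by
      intro f
      split_ifs with h
      · exact h
      · exact mk_univ)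
  obtain ⟨g, hg, hgA⟩ := hemb A hA
  apply hAno (fun d : D => g d.1)
  rw [if_pos (mk_Det hD h0 hlt hg)]
  refine (Det_subset hg).trans ?_
  rintro _ ⟨x, rfl⟩
  exact hgA x

end Pool.Agent.SSC
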