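import Pool.Agent.SSC.Cover

set_option autoImplicit false

open Set Cardinal

namespace Pool.Agent.SSC

universe u

variable {L : Type u} [LinearOrder L]

/-- small sets are given by the initial segments of a well-ordering of type the cardinality -/
theorem mk_Iic_lt (hc : ℵ₀ ≤ #L) (p : (#L).ord.ToType) : #(Iic p) < #L := by
  have : NoMaxOrder (#L).ord.ToType := Cardinal.noMaxOrder hc
  obtain ⟨q, hq⟩ := exists_gt p
  refine lt_of_le_of_lt (mk_le_mk_of_subset (t := Iio q) (fun r hr => lt_of_le_of_lt hr hq)) ?_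
  exact mk_Iio_toType_ord_lt q

theorem aleph0_lt_mk (hL : ¬ SS (univ : Set L)) : ℵ₀ < #L := by
  by_contra hc
  have : Countable L := Cardinal.mk_le_aleph0_iff.1 (not_lt.1 hc)
  exact hL (ss_of_countable (Set.to_countable _))

/-- regularity -/
theorem isRegular_mk (hL : ¬ SS (univ : Set L)) (hsmall : ∀ B : Set L, #B < #L → SS B) :
    (#L).IsRegular := by
  have hc := aleph0_lt_mk hL
  refine ⟨hc.le, ?_⟩
  by_contra hlt
  rw [not_le, ← Ordinal.cof_toType] at hlt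
  obtain ⟨e⟩ : Nonempty ((#L).ord.ToType ≃ L) := Cardinal.eq.1 (mk_ord_toType _)
  obtain ⟨s, hs, hs'⟩ := Order.exists_cof_eq (#L).ord.ToType
  refine hL (ss_of_cover (I := s) (fun p => e '' (Iic p.1)) (fun p => ?_) (by rw [hs']; exact hlt)
    (fun x => ?_) hsmall)
  · exact hsmall _ (lt_of_le_of_lt mk_image_le (mk_Iic_lt hc.le _))
  · obtain ⟨p, hp, hxp⟩ := hs (e.symm x)
    exact ⟨⟨p, hp⟩, ⟨e.symm x, hxp, by simp⟩⟩

/-- no cover by few sigma-scattered sets -/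
theorem no_cover (hL : ¬ SS (univ : Set L)) (hsmall : ∀ B : Set L, #B < #L → SS B)
    (𝒜 : Set (Set L)) (h1 : #𝒜 < #L) (h2 : ∀ A ∈ 𝒜, SS A) : ∃ x, ∀ A ∈ 𝒜, x ∉ A := by
  by_contra hno
  push Not at hno
  refine hL (ss_of_cover (I := 𝒜) (fun A => A.1) (fun A => h2 A.1 A.2) h1 (fun x => ?_) hsmall)
  obtain ⟨A, hA, hx⟩ := hno x
  exact ⟨⟨A, hA⟩, hx⟩

/-- the filter theorem -/
theorem no_filter (hL : ¬ SS (univ : Set L)) (hsmall : ∀ B : Set L, #B < #L → SS B) :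
    ∃ 𝒲 : Set (Set L), #𝒲 ≤ #L ∧ ∀ U : Filter L, U.NeBot → CountableInterFilter U →
      (∀ B : Set L, #B < #L → Bᶜ ∈ U) → ∃ W ∈ 𝒲, W ∉ U ∧ Wᶜ ∉ U := by
  have hc := aleph0_lt_mk hL
  obtain ⟨e⟩ : Nonempty ((#L).ord.ToType ≃ L) := Cardinal.eq.1 (mk_ord_toType _)
  have hS : ∀ y : L, SS (e '' (Iio (e.symm y))) := fun y =>
    hsmall _ (lt_of_le_of_lt mk_image_le (mk_Iio_toType_ord_lt _))
  choose S hS1 hS2 using hS
  refine ⟨Set.range (fun xn : L × ULift.{u} ℕ => {y : L | xn.1 ∈ S y xn.2.down}), ?_, ?_⟩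
  · refine mk_range_le.trans ?_
    rw [mk_prod]
    simp only [lift_id, mk_uLift, mk_nat, lift_aleph0]
    exact (mul_eq_left hc.le hc.le aleph0_ne_zero).le
  · intro U hU hUc hUs
    by_contra hno
    push Not at hno
    have hdec : ∀ (x : L) (n : ℕ), {y : L | x ∈ S y n} ∉ U → {y : L | x ∈ S y n}ᶜ ∈ U :=
      fun x n h => hno _ ⟨(x, ⟨n⟩), rfl⟩ h
    have hex : ∀ x : L, ∃ n : ℕ, {y : L | x ∈ S y n} ∈ U := by
      intro x
      by_contra h
      push Not at h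
      have h1 : (⋂ n : ℕ, {y : L | x ∈ S y n}ᶜ) ∈ U :=
        countable_iInter_mem.2 (fun n => hdec x n (h n))
      have h2 : (e '' (Iic (e.symm x)))ᶜ ∈ U :=
        hUs _ (lt_of_le_of_lt mk_image_le (mk_Iic_lt hc.le _))
      obtain ⟨y, hy1, hy2⟩ := hU.nonempty_of_mem (Filter.inter_mem h1 h2)
      have h3 : e.symm x < e.symm y := by
        by_contra h4
        exact hy2 ⟨e.symm y, not_lt.1 h4, by simp⟩
      obtain ⟨n, hn⟩ := hS1 y x ⟨e.symm x, h3, by simp⟩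
      exact (mem_iInter.1 hy1 n) hn
    refine hL ⟨fun n => {x | {y : L | x ∈ S y n} ∈ U}, fun x _ => hex x, fun n => ?_⟩
    rintro ⟨f, hf, hfS⟩
    have h1 : (⋂ q : ℚ, {y : L | f q ∈ S y n}) ∈ U := countable_iInter_mem.2 (fun q => hfS q)
    obtain ⟨y, hy⟩ := hU.nonempty_of_mem h1
    exact hS2 y n ⟨f, hf, fun q => mem_iInter.1 hy q⟩

end Pool.Agent.SSC
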