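import Pool.Agent.SSC.Basic

set_option autoImplicit false

open Set

namespace Pool.Agent.SSC

universe u v

/-- `C` is the largest cut of `N` to the left of `x`. -/
def CapR {L : Type u} [LinearOrder L] (N : Set (LowerSet L)) (x : L) (C : LowerSet L) : Prop :=
  C ∈ N ∧ x ∉ C ∧ ∀ C' ∈ N, C < C' → x ∈ C'

/-- `C` is the smallest cut of `N` to the right of `x`. -/
def CapL {L : Type u} [LinearOrder L] (N : Set (LowerSet L)) (x : L) (C : LowerSet L) : Prop :=
  C ∈ N ∧ x ∈ C ∧ ∀ C' ∈ N, C' < C → x ∉ C'

/-- the family `N` of cuts captures `x`. -/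
def Cap {L : Type u} [LinearOrder L] (N : Set (LowerSet L)) (x : L) : Prop :=
  ∃ C, CapR N x C ∨ CapL N x C

variable {L : Type u} [LinearOrder L]

theorem CapR.unique {N : Set (LowerSet L)} {x : L} {C C' : LowerSet L} (h : CapR N x C)
    (h' : CapR N x C') : C = C' := by
  rcases lt_trichotomy C C' with h1 | h1 | h1
  · exact absurd (h.2.2 C' h'.1 h1) h'.2.1
  · exact h1
  · exact absurd (h'.2.2 C h.1 h1) h.2.1

theorem CapL.unique {N : Set (LowerSet L)} {x : L} {C C' : LowerSet L} (h : CapL N x C)
    (h' : CapL N x C') : C = C' := by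
  rcases lt_trichotomy C C' with h1 | h1 | h1
  · exact absurd h.2.1 (h'.2.2 C h.1 h1)
  · exact h1
  · exact absurd h'.2.1 (h.2.2 C' h'.1 h1)

theorem CapR.anti {N N' : Set (LowerSet L)} {x : L} {C : LowerSet L} (h : CapR N x C)
    (hN : N' ⊆ N) (hC : C ∈ N') : CapR N' x C :=
  ⟨hC, h.2.1, fun C' h' => h.2.2 C' (hN h')⟩

theorem CapL.anti {N N' : Set (LowerSet L)} {x : L} {C : LowerSet L} (h : CapL N x C)
    (hN : N' ⊆ N) (hC : C ∈ N') : CapL N' x C :=
  ⟨hC, h.2.1, fun C' h' => h.2.2 C' (hN h')⟩

/-! ### a well-ordering of the points -/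

/-- rank of a point in a fixed well-ordering -/
noncomputable def rho (x : L) : Ordinal.{u} :=
  Ordinal.typein (WellOrderingRel : L → L → Prop) x

theorem rho_injective : Function.Injective (rho : L → Ordinal.{u}) :=
  Ordinal.typein_injective _

theorem exists_rho_min (S : Set L) (hS : S.Nonempty) : ∃ u ∈ S, ∀ v ∈ S, rho u ≤ rho v := by
  obtain ⟨w, ⟨u, hu, rfl⟩, hmin⟩ := WellFounded.has_min (wellFounded_lt (α := Ordinal.{u}))
    (rho '' S) (hS.image _)
  exact ⟨u, hu, fun v hv => not_lt.1 (hmin _ ⟨v, hv, rfl⟩)⟩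

open Classical in
/-- the first element of `S` (or `x` if `S` is empty) -/
noncomputable def firstOf (S : Set L) (x : L) : L :=
  if h : S.Nonempty then Classical.choose (exists_rho_min S h) else x

theorem firstOf_mem {S : Set L} (h : S.Nonempty) (x : L) : firstOf S x ∈ S := by
  unfold firstOf
  rw [dif_pos h]
  exact (Classical.choose_spec (exists_rho_min S h)).1

theorem firstOf_le {S : Set L} (x : L) {v : L} (hv : v ∈ S) :
    rho (firstOf S x) ≤ rho v := by
  have h : S.Nonempty := ⟨v, hv⟩
  unfold firstOf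
  rw [dif_pos h]
  exact (Classical.choose_spec (exists_rho_min S h)).2 v hv

/-- first point between the cut `C` and the point `x`, `x` to the right of `C` -/
noncomputable def uR (C : LowerSet L) (x : L) : L := firstOf {u | u ∉ C ∧ u ≤ x} x

/-- first point between the point `x` and the cut `C`, `x` to the left of `C` -/
noncomputable def uL (C : LowerSet L) (x : L) : L := firstOf {u | u ∈ C ∧ x ≤ u} x

theorem uR_mem {C : LowerSet L} {x : L} (h : x ∉ C) : uR C x ∉ C ∧ uR C x ≤ x :=
  firstOf_mem (S := {u | u ∉ C ∧ u ≤ x}) ⟨x, h, le_rfl⟩ x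

theorem uL_mem {C : LowerSet L} {x : L} (h : x ∈ C) : uL C x ∈ C ∧ x ≤ uL C x :=
  firstOf_mem (S := {u | u ∈ C ∧ x ≤ u}) ⟨x, h, le_rfl⟩ x

theorem uR_anti {C : LowerSet L} {x y : L} (hx : x ∉ C) (h : x < y) :
    rho (uR C y) ≤ rho (uR C x) :=
  firstOf_le (S := {u | u ∉ C ∧ u ≤ y}) y ⟨(uR_mem hx).1, (uR_mem hx).2.trans h.le⟩

theorem uL_mono {C : LowerSet L} {x y : L} (hy : y ∈ C) (h : x < y) :
    rho (uL C x) ≤ rho (uL C y) :=
  firstOf_le (S := {u | u ∈ C ∧ x ≤ u}) x ⟨(uL_mem hy).1, h.le.trans (uL_mem hy).2⟩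

/-! ### the coding process -/

section process

variable {H : Type v} (F : ℕ → List H → H) (c : H → LowerSet L) (a b : L → H)

open Classical in
noncomputable def nextR (N : Set H) (x : L) : Set H :=
  if h : ∃ C, CapR (c '' N) x C then
    cloC F (N ∪ {a (uR (Classical.choose h) x), b (uR (Classical.choose h) x)})
  else cloC F N

open Classical in
noncomputable def nextL (N : Set H) (x : L) : Set H :=
  if h : ∃ C, CapL (c '' N) x C then
    cloC F (N ∪ {a (uL (Classical.choose h) x), b (uL (Classical.choose h) x)})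
  else cloC F N

theorem nextR_eq {N : Set H} {x : L} {C : LowerSet L} (hC : CapR (c '' N) x C) :
    nextR F c a b N x = cloC F (N ∪ {a (uR C x), b (uR C x)}) := by
  have h : ∃ C, CapR (c '' N) x C := ⟨C, hC⟩
  have h2 : Classical.choose h = C := (Classical.choose_spec h).unique hC
  unfold nextR
  rw [dif_pos h, h2]

theorem nextR_eq' {N : Set H} {x : L} (h : ¬ ∃ C, CapR (c '' N) x C) :
    nextR F c a b N x = cloC F N := by
  unfold nextR
  rw [dif_neg h]

theorem nextL_eq {N : Set H} {x : L} {C : LowerSet L} (hC : CapL (c '' N) x C) :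
    nextL F c a b N x = cloC F (N ∪ {a (uL C x), b (uL C x)}) := by
  have h : ∃ C, CapL (c '' N) x C := ⟨C, hC⟩
  have h2 : Classical.choose h = C := (Classical.choose_spec h).unique hC
  unfold nextL
  rw [dif_pos h, h2]

theorem nextL_eq' {N : Set H} {x : L} (h : ¬ ∃ C, CapL (c '' N) x C) :
    nextL F c a b N x = cloC F N := by
  unfold nextL
  rw [dif_neg h]

theorem subset_nextR (N : Set H) (x : L) : N ⊆ nextR F c a b N x := by
  by_cases h : ∃ C, CapR (c '' N) x C
  · obtain ⟨C, hC⟩ := h
    rw [nextR_eq F c a b hC]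
    exact subset_union_left.trans (subset_cloC F _)
  · rw [nextR_eq' F c a b h]
    exact subset_cloC F _

theorem subset_nextL (N : Set H) (x : L) : N ⊆ nextL F c a b N x := by
  by_cases h : ∃ C, CapL (c '' N) x C
  · obtain ⟨C, hC⟩ := h
    rw [nextL_eq F c a b hC]
    exact subset_union_left.trans (subset_cloC F _)
  · rw [nextL_eq' F c a b h]
    exact subset_cloC F _

theorem nextR_countable {N : Set H} (hN : N.Countable) (x : L) :
    (nextR F c a b N x).Countable := by
  by_cases h : ∃ C, CapR (c '' N) x C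
  · obtain ⟨C, hC⟩ := h
    rw [nextR_eq F c a b hC]
    exact cloC_countable F (hN.union (by simp))
  · rw [nextR_eq' F c a b h]
    exact cloC_countable F hN

theorem nextL_countable {N : Set H} (hN : N.Countable) (x : L) :
    (nextL F c a b N x).Countable := by
  by_cases h : ∃ C, CapL (c '' N) x C
  · obtain ⟨C, hC⟩ := h
    rw [nextL_eq F c a b hC]
    exact cloC_countable F (hN.union (by simp))
  · rw [nextL_eq' F c a b h]
    exact cloC_countable F hN

theorem nextL_closed (N : Set H) (x : L) : Closed F (nextL F c a b N x) := by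
  by_cases h : ∃ C, CapL (c '' N) x C
  · obtain ⟨C, hC⟩ := h
    rw [nextL_eq F c a b hC]
    exact cloC_closed F _
  · rw [nextL_eq' F c a b h]
    exact cloC_closed F _

theorem nextR_ss (Y : Set H → Set L) (hY : ∀ N : Set H, N.Countable → SS (Y N)) {N : Set H}
    (hN : N.Countable) : SS {x | x ∈ Y (nextR F c a b N x)} := by
  have hcN : Countable (c '' N) := (hN.image c)
  have h1 : {x | x ∈ Y (nextR F c a b N x)} ⊆ Y (cloC F N) ∪
      ⋃ C : (c '' N), {x | x ∉ (C : LowerSet L) ∧
        x ∈ Y (cloC F (N ∪ {a (uR C x), b (uR C x)}))} := by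
    intro x hx
    have hx' : x ∈ Y (nextR F c a b N x) := hx
    by_cases h : ∃ C, CapR (c '' N) x C
    · obtain ⟨C, hC⟩ := h
      rw [nextR_eq F c a b hC] at hx'
      exact Or.inr (mem_iUnion.2 ⟨⟨C, hC.1⟩, hC.2.1, hx'⟩)
    · rw [nextR_eq' F c a b h] at hx'
      exact Or.inl hx'
  refine SS.mono h1 ((hY _ (cloC_countable F hN)).union (SS.iUnion (fun C => ?_)))
  refine ss_step_anti (fun x => rho (uR (C : LowerSet L) x)) ?_ ?_
  · intro x hx y _ hxy
    exact uR_anti hx.1 hxy
  · intro w
    by_cases hne : {x | x ∈ {x | x ∉ (C : LowerSet L) ∧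
        x ∈ Y (cloC F (N ∪ {a (uR C x), b (uR C x)}))} ∧ rho (uR (C : LowerSet L) x) = w}.Nonempty
    · obtain ⟨x0, _, hw⟩ := hne
      refine SS.mono ?_ (hY (cloC F (N ∪ {a (uR (C : LowerSet L) x0), b (uR (C : LowerSet L) x0)}))
        (cloC_countable F (hN.union (by simp))))
      rintro x ⟨⟨_, hx2⟩, hx3⟩
      have h3 : uR (C : LowerSet L) x = uR (C : LowerSet L) x0 := rho_injective (hx3.trans hw.symm)
      rw [h3] at hx2
      exact hx2
    · rw [not_nonempty_iff_eq_empty.1 hne]
      exact ss_empty

theorem nextL_ss (Y : Set H → Set L) (hY : ∀ N : Set H, N.Countable → SS (Y N)) {N : Set H}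
    (hN : N.Countable) : SS {x | x ∈ Y (nextL F c a b N x)} := by
  have hcN : Countable (c '' N) := (hN.image c)
  have h1 : {x | x ∈ Y (nextL F c a b N x)} ⊆ Y (cloC F N) ∪
      ⋃ C : (c '' N), {x | x ∈ (C : LowerSet L) ∧
        x ∈ Y (cloC F (N ∪ {a (uL C x), b (uL C x)}))} := by
    intro x hx
    have hx' : x ∈ Y (nextL F c a b N x) := hx
    by_cases h : ∃ C, CapL (c '' N) x C
    · obtain ⟨C, hC⟩ := h
      rw [nextL_eq F c a b hC] at hx'
      exact Or.inr (mem_iUnion.2 ⟨⟨C, hC.1⟩, hC.2.1, hx'⟩)
    · rw [nextL_eq' F c a b h] at hx'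
      exact Or.inl hx'
  refine SS.mono h1 ((hY _ (cloC_countable F hN)).union (SS.iUnion (fun C => ?_)))
  refine ss_step_mono (fun x => rho (uL (C : LowerSet L) x)) ?_ ?_
  · intro x _ y hy hxy
    exact uL_mono hy.1 hxy
  · intro w
    by_cases hne : {x | x ∈ {x | x ∈ (C : LowerSet L) ∧
        x ∈ Y (cloC F (N ∪ {a (uL C x), b (uL C x)}))} ∧ rho (uL (C : LowerSet L) x) = w}.Nonempty
    · obtain ⟨x0, _, hw⟩ := hne
      refine SS.mono ?_ (hY (cloC F (N ∪ {a (uL (C : LowerSet L) x0), b (uL (C : LowerSet L) x0)}))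
        (cloC_countable F (hN.union (by simp))))
      rintro x ⟨⟨_, hx2⟩, hx3⟩
      have h3 : uL (C : LowerSet L) x = uL (C : LowerSet L) x0 := rho_injective (hx3.trans hw.symm)
      rw [h3] at hx2
      exact hx2
    · rw [not_nonempty_iff_eq_empty.1 hne]
      exact ss_empty

/-- points reached after `k` rounds -/
noncomputable def BB : ℕ → Set H → Set L
  | 0, N => {x | a x ∈ N}
  | k + 1, N => {x | x ∈ BB k (nextL F c a b (nextR F c a b N x) x)}

theorem BB_ss (ha : Function.Injective a) (k : ℕ) :
    ∀ N : Set H, N.Countable → SS (BB F c a b k N) := by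
  induction k with
  | zero =>
    intro N hN
    refine ss_of_countable ?_
    exact hN.preimage_of_injOn (ha.injOn)
  | succ k ih =>
    intro N hN
    exact nextR_ss F c a b (fun N' => {x | x ∈ BB F c a b k (nextL F c a b N' x)})
      (fun N' hN' => nextL_ss F c a b (BB F c a b k) ih hN') hN

theorem mem_BB (x : L) (k : ℕ) : ∀ N : Set H, x ∈ BB F c a b k N ↔
    a x ∈ (fun N => nextL F c a b (nextR F c a b N x) x)^[k] N := by
  induction k with
  | zero => intro N; exact Iff.rfl
  | succ k ih =>
    intro N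
    rw [Function.iterate_succ_apply]
    exact ih _

end process

/-- THEOREM A: if some countable algebra has the property that all its countable closed sets
capture every point, then the order is sigma-scattered. -/
theorem thmA {H : Type v} (F : ℕ → List H → H) (c : H → LowerSet L) (a b : L → H)
    (ha : ∀ u, c (a u) = LowerSet.Iic u) (hb : ∀ u, c (b u) = LowerSet.Iio u)
    (hF : ∀ N : Set H, N.Countable → Closed F N → ∀ x, Cap (c '' N) x) :
    SS (Set.univ : Set L) := by
  have hinj : Function.Injective a := by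
    intro x y hxy
    have h1 : LowerSet.Iic x = LowerSet.Iic y := by rw [← ha, ← ha, hxy]
    exact LowerSet.Iic_injective h1
  have hsub : (Set.univ : Set L) ⊆ ⋃ k, BB F c a b k (cloC F ∅) := by
    intro x _
    set nx : Set H → Set H := fun N => nextL F c a b (nextR F c a b N x) x with hnx
    set N : ℕ → Set H := fun k => nx^[k] (cloC F ∅) with hNdef
    have hsucc : ∀ k, N (k + 1) = nx (N k) := fun k => Function.iterate_succ_apply' _ _ _
    have hstep : ∀ k, N k ⊆ N (k + 1) := by
      intro k
      rw [hsucc]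
      exact (subset_nextR F c a b (N k) x).trans (subset_nextL F c a b _ x)
    have hmono : ∀ m n, m ≤ n → N m ⊆ N n := by
      intro m n h
      induction n, h using Nat.le_induction with
      | base => exact subset_rfl
      | succ n _ ih => exact ih.trans (hstep n)
    have hcl : ∀ k, Closed F (N k) := by
      intro k
      cases k with
      | zero => exact cloC_closed F _
      | succ k => rw [hsucc]; exact nextL_closed F c a b _ _
    have hct : ∀ k, (N k).Countable := by
      intro k
      induction k with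
      | zero => exact cloC_countable F countable_empty
      | succ k ih => rw [hsucc]; exact nextL_countable F c a b (nextR_countable F c a b ih x) x
    have hcap := hF (⋃ k, N k) (countable_iUnion hct) (closed_iUnion F hmono hcl) x
    have hsubU : ∀ k, c '' N k ⊆ c '' (⋃ k, N k) := fun k => image_mono (subset_iUnion N k)
    have hkey : ∃ k, a x ∈ N k := by
      obtain ⟨C, hC | hC⟩ := hcap
      · obtain ⟨h, hh, hhC⟩ := hC.1
        obtain ⟨k, hk⟩ := mem_iUnion.1 hh
        have hCk : CapR (c '' N k) x C := hC.anti (hsubU k) ⟨h, hk, hhC⟩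
        have hR := nextR_eq F c a b hCk
        have h1 : nextR F c a b (N k) x ⊆ N (k + 1) := by
          rw [hsucc]; exact subset_nextL F c a b _ x
        have hau : a (uR C x) ∈ N (k + 1) := by
          apply h1; rw [hR]
          exact subset_cloC F _ (Or.inr (by simp))
        rcases (uR_mem hC.2.1).2.lt_or_eq with hlt | heq
        · exfalso
          have h2 : LowerSet.Iic (uR C x) ∈ c '' (⋃ k, N k) :=
            hsubU (k + 1) ⟨_, hau, ha _⟩
          have h3 : C < LowerSet.Iic (uR C x) := by
            rw [lt_iff_not_ge]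
            intro h4
            exact (uR_mem hC.2.1).1 (h4 (LowerSet.mem_Iic_iff.2 le_rfl))
          have h5 := hC.2.2 _ h2 h3
          exact absurd (LowerSet.mem_Iic_iff.1 h5) (not_le.2 hlt)
        · rw [heq] at hau
          exact ⟨_, hau⟩
      · obtain ⟨h, hh, hhC⟩ := hC.1
        obtain ⟨k, hk⟩ := mem_iUnion.1 hh
        have hN' : nextR F c a b (N k) x ⊆ ⋃ k, N k := by
          refine subset_trans ?_ (subset_iUnion N (k + 1))
          rw [hsucc]; exact subset_nextL F c a b _ x
        have hCk : CapL (c '' (nextR F c a b (N k) x)) x C :=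
          hC.anti (image_mono hN') ⟨h, subset_nextR F c a b _ _ hk, hhC⟩
        have hR := nextL_eq F c a b hCk
        have hau : a (uL C x) ∈ N (k + 1) := by
          rw [hsucc]
          change a (uL C x) ∈ nextL F c a b (nextR F c a b (N k) x) x
          rw [hR]
          exact subset_cloC F _ (Or.inr (by simp))
        have hbu : b (uL C x) ∈ N (k + 1) := by
          rw [hsucc]
          change b (uL C x) ∈ nextL F c a b (nextR F c a b (N k) x) x
          rw [hR]
          exact subset_cloC F _ (Or.inr (by simp))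
        rcases (uL_mem hC.2.1).2.lt_or_eq with hlt | heq
        · exfalso
          have h2 : LowerSet.Iio (uL C x) ∈ c '' (⋃ k, N k) :=
            hsubU (k + 1) ⟨_, hbu, hb _⟩
          have h3 : LowerSet.Iio (uL C x) < C := by
            rw [lt_iff_not_ge]
            intro h4
            have := h4 (uL_mem hC.2.1).1
            exact absurd (LowerSet.mem_Iio_iff.1 this) (lt_irrefl _)
          have h5 := hC.2.2 _ h2 h3
          exact h5 (LowerSet.mem_Iio_iff.2 hlt)
        · rw [← heq] at hau
          exact ⟨_, hau⟩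
    obtain ⟨k, hk⟩ := hkey
    exact mem_iUnion.2 ⟨k, (mem_BB F c a b x k _).2 hk⟩
  exact SS.mono hsub (SS.iUnion (fun k => BB_ss F c a b hinj k _ (cloC_countable F countable_empty)))

end Pool.Agent.SSC
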