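import Pool.Agent.SSC.ThmA

set_option autoImplicit false

open Set

namespace Pool.Agent.SSC

universe u v

variable {L : Type u} [LinearOrder L]

/-- a countable algebra of cuts all of whose closed sets capture the points of `A` -/
def Good (A : Set L) : Prop :=
  ∃ F : ℕ → List (LowerSet L) → LowerSet L, ∀ N, Closed F N → ∀ x ∈ A, Cap N x

theorem Good.mono {A B : Set L} (h : A ⊆ B) (hB : Good B) : Good A := by
  obtain ⟨F, hF⟩ := hB
  exact ⟨F, fun N hN x hx => hF N hN x (h hx)⟩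

theorem Good.iUnion_nat {A : ℕ → Set L} (h : ∀ n, Good (A n)) : Good (⋃ n, A n) := by
  choose F hF using h
  refine ⟨fun k l => F k.unpair.1 k.unpair.2 l, fun N hN x hx => ?_⟩
  obtain ⟨n, hn⟩ := mem_iUnion.1 hx
  refine hF n N (fun m l hl => ?_) x hn
  have := hN (Nat.pair n m) l hl
  simpa using this

theorem good_empty : Good (∅ : Set L) :=
  ⟨fun _ _ => ⊥, fun _ _ x hx => absurd hx (notMem_empty x)⟩

theorem Good.union {A B : Set L} (hA : Good A) (hB : Good B) : Good (A ∪ B) := by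
  have h : ∀ n : ℕ, Good (if n = 0 then A else B) := by
    intro n
    by_cases hn : n = 0
    · simpa [hn] using hA
    · simpa [hn] using hB
  refine (Good.iUnion_nat h).mono ?_
  rintro x (hx | hx)
  · exact mem_iUnion.2 ⟨0, by simpa using hx⟩
  · exact mem_iUnion.2 ⟨1, by simpa using hx⟩

theorem good_singleton (x : L) : Good ({x} : Set L) := by
  refine ⟨fun _ _ => LowerSet.Iic x, fun N hN y hy => ?_⟩
  rw [mem_singleton_iff] at hy
  subst hy
  refine ⟨LowerSet.Iic y, Or.inr ⟨hN 0 [] (by simp), LowerSet.mem_Iic_iff.2 le_rfl, ?_⟩⟩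
  intro C' _ hlt hy
  rw [lt_iff_not_ge] at hlt
  apply hlt
  intro z hz
  exact C'.lower (LowerSet.mem_Iic_iff.1 hz) hy

/-- two cuts are equivalent (relative to `S`) if the points of `S` between them form a good set -/
def Eqv (S : Set L) (C D : LowerSet L) : Prop :=
  Good {x | x ∈ S ∧ ¬ (x ∈ C ↔ x ∈ D)}

theorem Eqv.refl (S : Set L) (C : LowerSet L) : Eqv S C C := by
  refine good_empty.mono ?_
  rintro x ⟨_, hx⟩
  exact absurd Iff.rfl hx

theorem Eqv.symm {S : Set L} {C D : LowerSet L} (h : Eqv S C D) : Eqv S D C := by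
  refine Good.mono ?_ h
  rintro x ⟨h1, h2⟩
  exact ⟨h1, fun h3 => h2 h3.symm⟩

theorem Eqv.trans {S : Set L} {C D E : LowerSet L} (h : Eqv S C D) (h' : Eqv S D E) :
    Eqv S C E := by
  refine Good.mono ?_ (h.union h')
  rintro x ⟨h1, h2⟩
  by_cases h3 : x ∈ C ↔ x ∈ D
  · exact Or.inr ⟨h1, fun h4 => h2 (h3.trans h4)⟩
  · exact Or.inl ⟨h1, h3⟩

theorem Eqv.left {S : Set L} {C D E : LowerSet L} (h : Eqv S C E) (h1 : C ≤ D) (h2 : D ≤ E) :
    Eqv S C D := by
  refine Good.mono ?_ h
  rintro x ⟨h3, h4⟩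
  refine ⟨h3, fun h5 => h4 ⟨fun h6 => h1 h6, fun h6 => h5.2 (h2 h6)⟩⟩

theorem Eqv.right {S : Set L} {C D E : LowerSet L} (h : Eqv S C E) (h1 : C ≤ D) (h2 : D ≤ E) :
    Eqv S D E := (h.left h1 h2).symm.trans h

open Classical in
theorem eqv_sSup (S : Set L) (C : LowerSet L) : Eqv S C (sSup {D | Eqv S C D}) := by
  set T : Set (LowerSet L) := {D | Eqv S C D} with hT
  set FE : LowerSet L → ℕ → List (LowerSet L) → LowerSet L :=
    fun E => if h : Eqv S C E then Classical.choose h else fun _ _ => ⊥ with hFE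
  have hFEs : ∀ E, Eqv S C E → ∀ N, Closed (FE E) N → ∀ x ∈ {x | x ∈ S ∧ ¬ (x ∈ C ↔ x ∈ E)},
      Cap N x := by
    intro E hE
    have h1 : FE E = Classical.choose hE := by
      simp only [hFE]; rw [dif_pos hE]
    rw [h1]
    exact Classical.choose_spec hE
  set e : LowerSet L → LowerSet L :=
    fun Y => if h : ∃ E, E ∈ T ∧ Y < E then Classical.choose h else Y with he
  have hes : ∀ Y, Y < sSup T → e Y ∈ T ∧ Y < e Y := by
    intro Y hY
    obtain ⟨E, hE, hYE⟩ := lt_sSup_iff.1 hY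
    have h : ∃ E, E ∈ T ∧ Y < E := ⟨E, hE, hYE⟩
    have h1 : e Y = Classical.choose h := by
      simp only [he]; rw [dif_pos h]
    rw [h1]
    exact Classical.choose_spec h
  refine ⟨fun n l => match n, l with
    | 0, _ => sSup T
    | 1, [] => ⊥
    | 1, Y :: _ => e Y
    | (n + 2), [] => ⊥
    | (n + 2), E :: l' => FE E n l', fun N hN x hx => ?_⟩
  have hD : sSup T ∈ N := hN 0 [] (by simp)
  have heN : ∀ Y ∈ N, e Y ∈ N := fun Y hY => hN 1 [Y] (by simpa using hY)
  have hcl : ∀ E ∈ N, Closed (FE E) N := by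
    intro E hE n l hl
    refine hN (n + 2) (E :: l) ?_
    intro h hh
    rcases List.mem_cons.1 hh with rfl | h2
    · exact hE
    · exact hl h h2
  obtain ⟨hxS, hx2⟩ := hx
  have hCD : C ≤ sSup T := le_sSup (Eqv.refl S C)
  have hxD : x ∈ sSup T := by
    by_contra h
    exact hx2 ⟨fun h' => absurd (hCD h') h, fun h' => absurd h' h⟩
  have hxC : x ∉ C := fun h => hx2 ⟨fun _ => hxD, fun _ => h⟩
  by_cases hY : ∃ Y ∈ N, x ∈ Y ∧ Y < sSup T
  · obtain ⟨Y, hYN, hxY, hYD⟩ := hY
    obtain ⟨h1, h2⟩ := hes Y hYD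
    have hxE : x ∈ e Y := h2.le hxY
    exact hFEs (e Y) h1 N (hcl _ (heN Y hYN)) x ⟨hxS, fun h => hxC (h.2 hxE)⟩
  · push Not at hY
    exact ⟨sSup T, Or.inr ⟨hD, hxD, fun C' hC' hlt hx' => absurd hlt (not_lt.2 (hY C' hC' hx'))⟩⟩

open Classical in
theorem eqv_sInf (S : Set L) (C : LowerSet L) : Eqv S C (sInf {D | Eqv S C D}) := by
  set T : Set (LowerSet L) := {D | Eqv S C D} with hT
  set FE : LowerSet L → ℕ → List (LowerSet L) → LowerSet L :=
    fun E => if h : Eqv S C E then Classical.choose h else fun _ _ => ⊥ with hFE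
  have hFEs : ∀ E, Eqv S C E → ∀ N, Closed (FE E) N → ∀ x ∈ {x | x ∈ S ∧ ¬ (x ∈ C ↔ x ∈ E)},
      Cap N x := by
    intro E hE
    have h1 : FE E = Classical.choose hE := by
      simp only [hFE]; rw [dif_pos hE]
    rw [h1]
    exact Classical.choose_spec hE
  set e : LowerSet L → LowerSet L :=
    fun Y => if h : ∃ E, E ∈ T ∧ E < Y then Classical.choose h else Y with he
  have hes : ∀ Y, sInf T < Y → e Y ∈ T ∧ e Y < Y := by
    intro Y hY
    obtain ⟨E, hE, hYE⟩ := sInf_lt_iff.1 hY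
    have h : ∃ E, E ∈ T ∧ E < Y := ⟨E, hE, hYE⟩
    have h1 : e Y = Classical.choose h := by
      simp only [he]; rw [dif_pos h]
    rw [h1]
    exact Classical.choose_spec h
  refine ⟨fun n l => match n, l with
    | 0, _ => sInf T
    | 1, [] => ⊥
    | 1, Y :: _ => e Y
    | (n + 2), [] => ⊥
    | (n + 2), E :: l' => FE E n l', fun N hN x hx => ?_⟩
  have hD : sInf T ∈ N := hN 0 [] (by simp)
  have heN : ∀ Y ∈ N, e Y ∈ N := fun Y hY => hN 1 [Y] (by simpa using hY)
  have hcl : ∀ E ∈ N, Closed (FE E) N := by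
    intro E hE n l hl
    refine hN (n + 2) (E :: l) ?_
    intro h hh
    rcases List.mem_cons.1 hh with rfl | h2
    · exact hE
    · exact hl h h2
  obtain ⟨hxS, hx2⟩ := hx
  have hCD : sInf T ≤ C := sInf_le (Eqv.refl S C)
  have hxD : x ∉ sInf T := by
    intro h
    exact hx2 ⟨fun _ => h, fun h' => hCD h'⟩
  have hxC : x ∈ C := by
    by_contra h
    exact hx2 ⟨fun h' => absurd h' h, fun h' => absurd h' hxD⟩
  by_cases hY : ∃ Y ∈ N, x ∉ Y ∧ sInf T < Y
  · obtain ⟨Y, hYN, hxY, hYD⟩ := hY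
    obtain ⟨h1, h2⟩ := hes Y hYD
    have hxE : x ∉ e Y := fun h => hxY (h2.le h)
    exact hFEs (e Y) h1 N (hcl _ (heN Y hYN)) x ⟨hxS, fun h => hxE (h.1 hxC)⟩
  · push Not at hY
    refine ⟨sInf T, Or.inl ⟨hD, hxD, fun C' hC' hlt => ?_⟩⟩
    by_contra hx'
    exact absurd hlt (not_lt.2 (hY C' hC' hx'))

/-- THEOREM B for one scattered set. -/
theorem Scat.good {S : Set L} (hS : Scat S) : Good S := by
  by_contra hng
  set top : LowerSet L → LowerSet L := fun D => sSup {E | Eqv S D E} with htop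
  have htopE : ∀ D, Eqv S D (top D) := fun D => eqv_sSup S D
  have hle_top : ∀ D E, Eqv S D E → E ≤ top D := fun D E h => le_sSup h
  set Q : Set (LowerSet L) := {D | top D = D} with hQ
  have htopQ : ∀ D, top D ∈ Q := by
    intro D
    have h1 : top (top D) ≤ top D :=
      sSup_le (fun E hE => le_sSup ((htopE D).trans hE))
    exact le_antisymm h1 (hle_top _ _ (Eqv.refl S _))
  have hne : ∀ b b', b ∈ Q → b < b' → ¬ Eqv S b b' := by
    intro b b' hb hlt h
    have h1 := hle_top b b' h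
    have h2 : top b = b := hb
    rw [h2] at h1
    exact absurd hlt (not_lt.2 h1)
  have hdense : DenselyOrdered Q := by
    refine ⟨fun b b' hbb => ?_⟩
    obtain ⟨b, hb⟩ := b
    obtain ⟨b', hb'⟩ := b'
    have hlt : b < b' := hbb
    set c' : LowerSet L := sInf {E | Eqv S b' E} with hc'
    have hc'E : Eqv S b' c' := eqv_sInf S b'
    have hc'le : c' ≤ b' := sInf_le (Eqv.refl S b')
    have hbc : b < c' := by
      by_contra h
      exact hne b b' hb hlt (hc'E.symm.right (not_lt.1 h) hlt.le)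
    have hd0 : ∃ d0, b < d0 ∧ d0 < c' := by
      by_contra hno
      push Not at hno
      obtain ⟨x, hxc, hxb⟩ : ∃ x, x ∈ c' ∧ x ∉ b := by
        by_contra h
        push Not at h
        exact absurd hbc (not_lt.2 (fun x hx => h x hx))
      have h1 : LowerSet.Iic x = c' := by
        refine le_antisymm (fun y hy => c'.lower (LowerSet.mem_Iic_iff.1 hy) hxc) ?_
        refine hno _ ?_
        rw [lt_iff_not_ge]
        intro h
        exact hxb (h (LowerSet.mem_Iic_iff.2 le_rfl))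
      have h2 : LowerSet.Iio x ≤ b := by
        by_contra h
        have h3 := hno _ (not_le.1 h)
        exact absurd (LowerSet.mem_Iio_iff.1 (h3 hxc)) (lt_irrefl _)
      have h3 : Eqv S b c' := by
        refine (good_singleton x).mono ?_
        rintro y ⟨_, hy⟩
        rcases lt_trichotomy y x with h4 | h4 | h4
        · exfalso
          apply hy
          exact ⟨fun _ => c'.lower h4.le hxc, fun _ => h2 (LowerSet.mem_Iio_iff.2 h4)⟩
        · exact h4
        · exfalso
          apply hy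
          constructor
          · intro h5; exact absurd (b.lower h4.le h5) hxb
          · intro h5
            rw [← h1] at h5
            exact absurd h4 (not_lt.2 (LowerSet.mem_Iic_iff.1 h5))
      exact hne b b' hb hlt (h3.trans hc'E.symm)
    obtain ⟨d0, h1, h2⟩ := hd0
    refine ⟨⟨top d0, htopQ d0⟩, ?_, ?_⟩
    · change b < top d0
      exact lt_of_lt_of_le h1 (hle_top d0 d0 (Eqv.refl S d0))
    · change top d0 < b'
      refine lt_of_lt_of_le ?_ hc'le
      by_contra h
      have h3 : Eqv S d0 c' := (htopE d0).left h2.le (not_lt.1 h)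
      have h4 : Eqv S b' d0 := hc'E.trans h3.symm
      exact absurd h2 (not_lt.2 (sInf_le h4))
  have hnt : Nontrivial Q := by
    refine ⟨⟨⟨top ⊥, htopQ ⊥⟩, ⟨top ⊤, htopQ ⊤⟩, fun h => ?_⟩⟩
    have h1 : top (⊥ : LowerSet L) = top ⊤ := congrArg Subtype.val h
    have h2 : Eqv S ⊥ ⊤ := by
      have h3 := htopE (⊥ : LowerSet L)
      rw [h1] at h3
      exact h3.trans (htopE ⊤).symm
    refine hng (Good.mono ?_ h2)
    intro x hx
    exact ⟨hx, fun h4 => absurd (h4.2 (LowerSet.mem_top)) (LowerSet.notMem_bot)⟩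
  have hctb : Countable (ℚ ×ₗ Bool) := inferInstanceAs (Countable (ℚ × Bool))
  obtain ⟨g⟩ := Order.embedding_from_countable_to_dense (ℚ ×ₗ Bool) Q
  have hlt1 : ∀ q : ℚ, (g (toLex (q, false)) : LowerSet L) < g (toLex (q, true)) := by
    intro q
    have h1 : (toLex (q, false) : ℚ ×ₗ Bool) < toLex (q, true) := by
      rw [Prod.Lex.toLex_lt_toLex]; right; exact ⟨rfl, Bool.false_lt_true⟩
    exact g.strictMono h1
  have hx : ∀ q : ℚ, ∃ x, x ∈ S ∧ x ∈ (g (toLex (q, true)) : LowerSet L) ∧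
      x ∉ (g (toLex (q, false)) : LowerSet L) := by
    intro q
    by_contra h
    push Not at h
    refine hne _ _ (g (toLex (q, false))).2 (hlt1 q) ?_
    refine good_empty.mono ?_
    rintro x ⟨hxS, hx2⟩
    exfalso
    exact hx2 ⟨fun h3 => (hlt1 q).le h3, fun h3 => h x hxS h3⟩
  choose f hfS hf1 hf2 using hx
  refine hS ⟨f, fun q q' hqq => ?_, hfS⟩
  have h1 : (g (toLex (q, true)) : LowerSet L) < g (toLex (q', false)) := by
    have h2 : (toLex (q, true) : ℚ ×ₗ Bool) < toLex (q', false) := by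
      rw [Prod.Lex.toLex_lt_toLex]; left; exact hqq
    exact g.strictMono h2
  by_contra h3
  exact hf2 q' ((g (toLex (q', false)) : LowerSet L).lower (not_lt.1 h3) (h1.le (hf1 q)))

/-- THEOREM B: a sigma-scattered set is captured by all closed sets of a countable algebra. -/
theorem SS.good {A : Set L} (hA : SS A) : Good A := by
  obtain ⟨S, h1, h2⟩ := hA
  refine (Good.iUnion_nat (fun n => (h2 n).good)).mono (fun x hx => ?_)
  obtain ⟨n, hn⟩ := h1 x hx
  exact mem_iUnion.2 ⟨n, hn⟩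

end Pool.Agent.SSC
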