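import Pool.Agent.SSC.ThmB

set_option autoImplicit false

open Set Cardinal

namespace Pool.Agent.SSC

universe u v

/-! ### size of closures -/

theorem mk_lists_le {H : Type u} (N : Set H) (μ : Cardinal.{u}) (h0 : ℵ₀ ≤ μ) (hN : #N ≤ μ) :
    #{l : List H | ∀ h ∈ l, h ∈ N} ≤ μ := by
  have h1 : {l : List H | ∀ h ∈ l, h ∈ N} = Set.range (List.map (Subtype.val : N → H)) := by
    ext l
    constructor
    · intro hl
      refine ⟨l.attach.map (fun a => ⟨a.1, hl a.1 a.2⟩), ?_⟩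
      simp
    · rintro ⟨l', rfl⟩ h hh
      obtain ⟨a, _, rfl⟩ := List.mem_map.1 hh
      exact a.2
  rw [h1]
  refine mk_range_le.trans ((mk_list_le_max _).trans (max_le h0 hN))

theorem mk_stepC_le {H : Type u} {ι : Type u} (F : ι → List H → H) (N : Set H) (μ : Cardinal.{u})
    (h0 : ℵ₀ ≤ μ) (hN : #N ≤ μ) (hι : #ι ≤ μ) : #(stepC F N) ≤ μ := by
  have h2 : {h | ∃ i l, (∀ h' ∈ l, h' ∈ N) ∧ F i l = h}
      = ⋃ i, (F i) '' {l : List H | ∀ h ∈ l, h ∈ N} := by
    ext h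
    simp only [mem_setOf_eq, mem_iUnion, mem_image]
  have h3 : #{h | ∃ i l, (∀ h' ∈ l, h' ∈ N) ∧ F i l = h} ≤ μ := by
    rw [h2]
    refine (mk_iUnion_le _).trans ?_
    refine (mul_le_mul' hι (ciSup_le' (fun i => mk_image_le.trans (mk_lists_le N μ h0 hN)))).trans ?_
    rw [mul_eq_self h0]
  refine (mk_union_le _ _).trans ((add_le_add hN h3).trans ?_)
  rw [add_eq_self h0]

theorem mk_cloC_le {H : Type u} {ι : Type u} (F : ι → List H → H) (X : Set H) (μ : Cardinal.{u})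
    (h0 : ℵ₀ ≤ μ) (hX : #X ≤ μ) (hι : #ι ≤ μ) : #(cloC F X) ≤ μ := by
  have h1 : ∀ n, #(iterC F X n) ≤ μ := by
    intro n
    induction n with
    | zero => exact hX
    | succ n ih => exact mk_stepC_le F _ μ h0 ih hι
  have h2 : cloC F X = ⋃ n : ULift.{u} ℕ, iterC F X n.down := by
    ext h
    simp only [cloC, mem_iUnion]
    constructor
    · rintro ⟨n, hn⟩; exact ⟨⟨n⟩, hn⟩
    · rintro ⟨n, hn⟩; exact ⟨n.down, hn⟩
  rw [h2]
  refine (mk_iUnion_le _).trans ?_
  have h3 : #(ULift.{u} ℕ) ≤ μ := by simpa using h0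
  have h4 : (⨆ n : ULift.{u} ℕ, #(iterC F X n.down)) ≤ μ := ciSup_le' (fun n => h1 n.down)
  refine (mul_le_mul' h3 h4).trans ?_
  rw [mul_eq_self h0]

variable {L : Type u} [LinearOrder L]

/-! ### gaps of a family of cuts -/

/-- the points to the right of `z` not separated from `z` by `K` -/
def IR (K : Set (LowerSet L)) (z : LowerSet L) : Set L := {y | y ∉ z ∧ ∀ C' ∈ K, z < C' → y ∈ C'}

/-- the points to the left of `z` not separated from `z` by `K` -/
def IL (K : Set (LowerSet L)) (z : LowerSet L) : Set L := {y | y ∈ z ∧ ∀ C' ∈ K, C' < z → y ∉ C'}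

open Classical in
/-- a set of chosen points -/
noncomputable def GG (K : Set (LowerSet L)) : Set L :=
  (⋃ z : K, (if h : (IR K z).Nonempty then {h.some} else ∅)) ∪
  (⋃ z : K, (if h : (IL K z).Nonempty then {h.some} else ∅))

theorem exists_GR {K : Set (LowerSet L)} {z : LowerSet L} (hz : z ∈ K) (h : (IR K z).Nonempty) :
    ∃ g ∈ GG K, g ∈ IR K z := by
  refine ⟨h.some, Or.inl (mem_iUnion.2 ⟨⟨z, hz⟩, ?_⟩), h.some_mem⟩
  rw [dif_pos h]
  exact mem_singleton _

theorem exists_GL {K : Set (LowerSet L)} {z : LowerSet L} (hz : z ∈ K) (h : (IL K z).Nonempty) :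
    ∃ g ∈ GG K, g ∈ IL K z := by
  refine ⟨h.some, Or.inr (mem_iUnion.2 ⟨⟨z, hz⟩, ?_⟩), h.some_mem⟩
  rw [dif_pos h]
  exact mem_singleton _

theorem mk_GG_le (K : Set (LowerSet L)) (μ : Cardinal.{u}) (h0 : ℵ₀ ≤ μ) (hK : #K ≤ μ) :
    #(GG K) ≤ μ := by
  have h1 : ∀ (X : Set L) (x : X.Nonempty), True := fun _ _ => trivial
  refine (mk_union_le _ _).trans ?_
  rw [← add_eq_self h0]
  refine add_le_add ?_ ?_
  · refine (mk_iUnion_le _).trans ((mul_le_mul' hK (ciSup_le' (a := 1) (fun z => ?_))).trans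
      (mul_one μ).le)
    split_ifs with h
    · simp
    · simp
  · refine (mk_iUnion_le _).trans ((mul_le_mul' hK (ciSup_le' (a := 1) (fun z => ?_))).trans
      (mul_one μ).le)
    split_ifs with h
    · simp
    · simp

open Classical in
/-- the algebra attached to the chosen points -/
noncomputable def Phi (K : Set (LowerSet L)) : ℕ → List (LowerSet L) → LowerSet L :=
  if h : Good (GG K) then h.choose else fun _ _ => ⊥

theorem Phi_spec {K : Set (LowerSet L)} (h : Good (GG K)) : ∀ N, Closed (Phi K) N →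
    ∀ x ∈ GG K, Cap N x := by
  unfold Phi
  rw [dif_pos h]
  exact h.choose_spec

open Classical in
/-- the largest member of `K` below `w` -/
noncomputable def mR (K : Set (LowerSet L)) (w : LowerSet L) : LowerSet L :=
  if h : ∃ y ∈ K, y ≤ w ∧ ∀ y' ∈ K, y' ≤ w → y' ≤ y then h.choose else ⊥

open Classical in
/-- the smallest member of `K` above `w` -/
noncomputable def mL (K : Set (LowerSet L)) (w : LowerSet L) : LowerSet L :=
  if h : ∃ y ∈ K, w ≤ y ∧ ∀ y' ∈ K, w ≤ y' → y ≤ y' then h.choose else ⊥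

theorem mR_eq {K : Set (LowerSet L)} {w z : LowerSet L} (hz : z ∈ K) (hzw : z ≤ w)
    (hm : ∀ y' ∈ K, y' ≤ w → y' ≤ z) : mR K w = z := by
  have h : ∃ y ∈ K, y ≤ w ∧ ∀ y' ∈ K, y' ≤ w → y' ≤ y := ⟨z, hz, hzw, hm⟩
  unfold mR
  rw [dif_pos h]
  have hs := h.choose_spec
  exact le_antisymm (hm _ hs.1 hs.2.1) (hs.2.2 z hz hzw)

theorem mL_eq {K : Set (LowerSet L)} {w z : LowerSet L} (hz : z ∈ K) (hzw : w ≤ z)
    (hm : ∀ y' ∈ K, w ≤ y' → z ≤ y') : mL K w = z := by
  have h : ∃ y ∈ K, w ≤ y ∧ ∀ y' ∈ K, w ≤ y' → y ≤ y' := ⟨z, hz, hzw, hm⟩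
  unfold mL
  rw [dif_pos h]
  have hs := h.choose_spec
  exact le_antisymm (hs.2.2 z hz hzw) (hm _ hs.1 hs.2.1)

theorem mR_mem (K : Set (LowerSet L)) (w : LowerSet L) : mR K w ∈ K ∨ mR K w = ⊥ := by
  unfold mR
  split_ifs with h
  · exact Or.inl h.choose_spec.1
  · exact Or.inr rfl

theorem mL_mem (K : Set (LowerSet L)) (w : LowerSet L) : mL K w ∈ K ∨ mL K w = ⊥ := by
  unfold mL
  split_ifs with h
  · exact Or.inl h.choose_spec.1
  · exact Or.inr rfl

/-- The transfer lemma (right case). `Z` is the small family, `MJ` a larger one. -/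
theorem capR_transfer {K Z MJ : Set (LowerSet L)} {x g : L} {z : LowerSet L}
    (hZM : Z ⊆ MJ) (hz : z ∈ K) (hzZ : z ∉ Z) (hxz : CapR MJ x z)
    (hg : g ∈ IR K z) (hgZ : Cap Z g) (hm : ∀ w ∈ Z, mR K w ∈ Z) : Cap Z x := by
  have hmax : ∀ w, z < w → g ∉ w → w ∈ Z → False := by
    intro w hzw hgw hw
    apply hzZ
    have h1 : mR K w = z := by
      refine mR_eq hz hzw.le (fun y' hy' hyw => ?_)
      by_contra hlt
      exact hgw (hyw (hg.2 y' hy' (not_le.1 hlt)))
    rw [← h1]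
    exact hm w hw
  obtain ⟨w, hw | hw⟩ := hgZ
  · rcases lt_trichotomy w z with h | h | h
    · refine ⟨w, Or.inl ⟨hw.1, fun hx => hxz.2.1 (h.le hx), fun C' hC' hlt => ?_⟩⟩
      have hgC : g ∈ C' := hw.2.2 C' hC' hlt
      refine hxz.2.2 C' (hZM hC') ?_
      by_contra hle
      exact hg.1 ((not_lt.1 hle) hgC)
    · exact absurd (h ▸ hw.1) hzZ
    · exact (hmax w h hw.2.1 hw.1).elim
  · have hzw : z < w := by
      by_contra hle
      exact hg.1 ((not_lt.1 hle) hw.2.1)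
    have hxw : x ∈ w := hxz.2.2 w (hZM hw.1) hzw
    by_contra hno
    have h1 : ∃ C' ∈ Z, C' < w ∧ x ∈ C' := by
      by_contra h2
      push Not at h2
      exact hno ⟨w, Or.inr ⟨hw.1, hxw, fun C' hC' hlt => h2 C' hC' hlt⟩⟩
    obtain ⟨C', hC', hlt, hxC⟩ := h1
    have hzC : z < C' := by
      by_contra hle
      exact hxz.2.1 ((not_lt.1 hle) hxC)
    exact hmax C' hzC (hw.2.2 C' hC' hlt) hC'

/-- The transfer lemma (left case). -/
theorem capL_transfer {K Z MJ : Set (LowerSet L)} {x g : L} {z : LowerSet L}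
    (hZM : Z ⊆ MJ) (hz : z ∈ K) (hzZ : z ∉ Z) (hxz : CapL MJ x z)
    (hg : g ∈ IL K z) (hgZ : Cap Z g) (hm : ∀ w ∈ Z, mL K w ∈ Z) : Cap Z x := by
  have hmin : ∀ w, w < z → g ∈ w → w ∈ Z → False := by
    intro w hzw hgw hw
    apply hzZ
    have h1 : mL K w = z := by
      refine mL_eq hz hzw.le (fun y' hy' hyw => ?_)
      by_contra hlt
      exact hg.2 y' hy' (not_le.1 hlt) (hyw hgw)
    rw [← h1]
    exact hm w hw
  obtain ⟨w, hw | hw⟩ := hgZ
  · have hzw : w < z := by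
      by_contra hle
      exact hw.2.1 ((not_lt.1 hle) hg.1)
    have hxw : x ∉ w := hxz.2.2 w (hZM hw.1) hzw
    by_contra hno
    have h1 : ∃ C' ∈ Z, w < C' ∧ x ∉ C' := by
      by_contra h2
      push Not at h2
      exact hno ⟨w, Or.inl ⟨hw.1, hxw, fun C' hC' hlt => h2 C' hC' hlt⟩⟩
    obtain ⟨C', hC', hlt, hxC⟩ := h1
    have hzC : C' < z := by
      by_contra hle
      exact hxC ((not_lt.1 hle) hxz.2.1)
    exact hmin C' hzC (hw.2.2 C' hC' hlt) hC'
  · rcases lt_trichotomy w z with h | h | h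
    · exact (hmin w h hw.2.1 hw.1).elim
    · exact absurd (h ▸ hw.1) hzZ
    · refine ⟨w, Or.inr ⟨hw.1, h.le hxz.2.1, fun C' hC' hlt => ?_⟩⟩
      have hgC : g ∉ C' := hw.2.2 C' hC' hlt
      refine hxz.2.2 C' (hZM hC') ?_
      by_contra hle
      exact hgC ((not_lt.1 hle) hg.1)

/-! ### the chain of families -/

section chain

variable {I : Type u} (F : I → ℕ → List (LowerSet L) → LowerSet L) {P : Type u} [LinearOrder P]
  [WellFoundedLT P] (pt : P → L)

/-- the chain -/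
noncomputable def KK : P → Set (LowerSet L) :=
  WellFounded.fix (wellFounded_lt (α := P)) (fun p ih =>
    cloC (ι := (I × ℕ) ⊕ ({q // q < p} × ℕ))
      (Sum.elim (fun i => F i.1 i.2) (fun q => Phi (ih q.1.1 q.1.2) q.2))
      ({⊥, LowerSet.Iic (pt p), LowerSet.Iio (pt p)} ∪ ⋃ q : {q // q < p}, ih q.1 q.2))

theorem KK_eq (p : P) : KK F pt p =
    cloC (ι := (I × ℕ) ⊕ ({q // q < p} × ℕ))
      (Sum.elim (fun i => F i.1 i.2) (fun q => Phi (KK F pt q.1.1) q.2))
      ({⊥, LowerSet.Iic (pt p), LowerSet.Iio (pt p)} ∪ ⋃ q : {q // q < p}, KK F pt q.1) := by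
  unfold KK
  rw [WellFounded.fix_eq]

theorem KK_lt {p q : P} (h : q < p) : KK F pt q ⊆ KK F pt p := by
  rw [KK_eq F pt p]
  refine subset_trans ?_ (subset_cloC _ _)
  exact subset_trans (subset_iUnion (fun q : {q // q < p} => KK F pt q.1) ⟨q, h⟩)
    subset_union_right

theorem KK_mono {p q : P} (h : q ≤ p) : KK F pt q ⊆ KK F pt p := by
  rcases h.lt_or_eq with h1 | h1
  · exact KK_lt F pt h1
  · rw [h1]

theorem KK_bot (p : P) : ⊥ ∈ KK F pt p := by
  rw [KK_eq F pt p]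
  exact subset_cloC _ _ (Or.inl (by simp))

theorem KK_Iic (p : P) : LowerSet.Iic (pt p) ∈ KK F pt p := by
  rw [KK_eq F pt p]
  exact subset_cloC _ _ (Or.inl (by simp))

theorem KK_Iio (p : P) : LowerSet.Iio (pt p) ∈ KK F pt p := by
  rw [KK_eq F pt p]
  exact subset_cloC _ _ (Or.inl (by simp))

theorem KK_closedF (p : P) (i : I) : Closed (F i) (KK F pt p) := by
  intro n l hl
  rw [KK_eq F pt p] at hl ⊢
  exact cloC_closed _ _ (Sum.inl (i, n)) l hl

theorem KK_closedPhi {p q : P} (h : q < p) : Closed (Phi (KK F pt q)) (KK F pt p) := by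
  intro n l hl
  rw [KK_eq F pt p] at hl ⊢
  exact cloC_closed _ _ (Sum.inr (⟨q, h⟩, n)) l hl

theorem mk_KK_le (p : P) : #(KK F pt p) ≤ max (max #(Iio p) #I) ℵ₀ := by
  induction p using WellFoundedLT.induction with
  | ind p ih =>
    set μ : Cardinal.{u} := max (max #(Iio p) #I) ℵ₀ with hμ
    have h0 : ℵ₀ ≤ μ := le_max_right _ _
    have hp : #(Iio p) ≤ μ := (le_max_left _ _).trans (le_max_left _ _)
    have hI : #I ≤ μ := (le_max_right _ _).trans (le_max_left _ _)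
    have hq : ∀ q : {q // q < p}, #(KK F pt q.1) ≤ μ := by
      intro q
      refine (ih q.1 q.2).trans (max_le_max (max_le_max ?_ le_rfl) le_rfl)
      exact mk_le_mk_of_subset (Iio_subset_Iio q.2.le)
    have hP' : #{q // q < p} ≤ μ := hp
    rw [KK_eq F pt p]
    refine mk_cloC_le _ _ μ h0 ?_ ?_
    · refine (mk_union_le _ _).trans ?_
      rw [← add_eq_self h0]
      refine add_le_add ?_ ?_
      · refine le_trans ?_ h0
        exact (Set.Finite.lt_aleph0 (by simp)).le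
      · refine (mk_iUnion_le _).trans ((mul_le_mul' hP' (ciSup_le' hq)).trans ?_)
        rw [mul_eq_self h0]
    · rw [mk_sum, lift_id, lift_id, mk_prod, mk_prod]
      simp only [lift_id, lift_uzero, mk_nat, lift_aleph0]
      rw [← add_eq_self h0]
      refine add_le_add ?_ ?_
      · exact (mul_le_mul' hI h0).trans (mul_eq_self h0).le
      · exact (mul_le_mul' hP' h0).trans (mul_eq_self h0).le

end chain

end Pool.Agent.SSC
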